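import Pool.Agent.Run7.h800.RG.Stm

/-!
# Project RG, second stage: uniqueness of the decomposition of a continuous semimartingale

Optional stopping in continuous time, and: a continuous local martingale of finite variation is constant.
-/

set_option autoImplicit false

namespace Run7.h800.RG

open MeasureTheory ProbabilityTheory Set Filter Topology
open scoped ENNReal NNReal

/-- The stopped process `X_{min t τ}`. -/
noncomputable def stopped {Ω : Type} (X : ℝ≥0 → Ω → ℝ) (τ : Ω → ℝ≥0∞) (t : ℝ≥0) (ω : Ω) : ℝ :=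
  X (min (t : ℝ≥0∞) (τ ω)).toNNReal ω

/-- Continuous local martingales. -/
structure CLM {Ω : Type} {m : MeasurableSpace Ω} (F : Filtration ℝ≥0 m) (P : Measure Ω)
    (X : ℝ≥0 → Ω → ℝ) : Prop where
  cont : ∀ᵐ ω ∂P, Continuous fun t => X t ω
  meas : ∀ t, Measurable[F t] (X t)
  loc : ∃ τ : ℕ → Ω → ℝ≥0∞, (∀ n (t : ℝ≥0), MeasurableSet[F t] {ω | τ n ω ≤ t}) ∧
    (∀ᵐ ω ∂P, ∀ n, τ n ω ≤ τ (n + 1) ω) ∧ (∀ᵐ ω ∂P, Tendsto (fun n => τ n ω) atTop (𝓝 ∞)) ∧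
    ∀ n, Martingale (fun t ω => stopped X (τ n) t ω - X 0 ω) F P

/-- UIL (100 lines). Discrete optional stopping. `{κ > k} ∈ F (u k)`. (1) `Y (u κ) = ∑_{k ≤ n} 1_{κ = k} Y (u k)`. (2) `Y (u κ) - Y (u 0) =
∑_{k<n} 1_{κ > k} (Y (u (k+1)) - Y (u k))`, `E ∩ {κ > k} ∈ F (u k)` (`Martingale.setIntegral_eq`). (3) the set `{κ = k, C < |Y (u k)|}` is in
`F (u k)`, and on it `∫ |Y (u k)| ≤ ∫ |Y (u n)|` for `k ≤ n` (`|Y (u k)| ≤ E[|Y (u n)| | F (u k)]`, or split by the sign of `Y (u k)`); sum over `k ≤ n`. -/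
def S_UIL : Prop := ∀ (Ω : Type) (m : MeasurableSpace Ω) (P : Measure Ω), IsProbabilityMeasure P →
  ∀ (F : Filtration ℝ≥0 m) (Y : ℝ≥0 → Ω → ℝ), Martingale Y F P →
  ∀ (n : ℕ) (u : ℕ → ℝ≥0), Monotone u → ∀ κ : Ω → ℕ, (∀ ω, κ ω ≤ n) →
  (∀ k, MeasurableSet[F (u k)] {ω | κ ω ≤ k}) →
  Integrable (fun ω => Y (u (κ ω)) ω) P ∧
  (∀ E : Set Ω, MeasurableSet[F (u 0)] E → ∫ ω in E, Y (u (κ ω)) ω ∂P = ∫ ω in E, Y (u 0) ω ∂P) ∧
  ∀ C : ℝ, ∫ ω in {ω | C < |Y (u (κ ω)) ω|}, |Y (u (κ ω)) ω| ∂P ≤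
    ∫ ω in {ω | C < |Y (u (κ ω)) ω|}, |Y (u n) ω| ∂P

/-- VIT (80 lines). Vitali. `∫ |Z j| ≤ ∫ |X|` (`C = -1`), so `P(C < |Z j|) ≤ ∫ |X| / C`, and by the absolute continuity of the integral of `|X|` the
hypothesis gives uniform integrability (`uniformIntegrable_of`), `tendsto_Lp_finite_of_tendsto_ae`. -/
def S_VIT : Prop := ∀ (Ω : Type) (m : MeasurableSpace Ω) (P : Measure Ω), IsProbabilityMeasure P →
  ∀ (Z : ℕ → Ω → ℝ) (Z' X : Ω → ℝ), (∀ j, Integrable (Z j) P) → Integrable X P →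
  (∀ (j : ℕ) (C : ℝ), ∫ ω in {ω | C < |Z j ω|}, |Z j ω| ∂P ≤ ∫ ω in {ω | C < |Z j ω|}, |X ω| ∂P) →
  (∀ᵐ ω ∂P, Tendsto (fun j => Z j ω) atTop (𝓝 (Z' ω))) →
  Integrable Z' P ∧ Tendsto (fun j => ∫ ω, |Z j ω - Z' ω| ∂P) atTop (𝓝 0)

/-- OST (150 lines, `S_UIL → S_VIT → S_OST`). Optional stopping. Adapted: `τ^j = (⌊2^j τ⌋ + 1)/2^j` (`∞` if `τ = ∞`) decreases to `τ`,
`X_{min t τ^j} = ∑_{k ≤ 2^j t} 1_{τ^j = k/2^j} X_{k/2^j} + 1_{τ^j > t} X_t` is `F t`-measurable, tends a.s. to `X_{min t τ}`, and `F t` contains the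
null sets. Martingale: let `s < t`, `u k = s + (t - s) min(k, 2^j)/2^j`, `κ = min {k ≤ 2^j : τ ≤ u k}`, `2^j` if there is none. By `UIL` and `VIT`
(`X (u κ) → X_{max s (min t τ)}` a.s., with bound `X t`) `∫_E X_{max s (min t τ)} = ∫_E X_s` for `E ∈ F s`. Apply this to `E ∩ {τ > s}`; on `{τ ≤ s}` `X_{min t τ} = X_{min s τ}`.
(`∫_E`-identities give the conditional expectation, `ae_eq_condExp_of_integral_eq_setIntegral`.) Integrability: `s = 0`. -/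
def S_OST : Prop := ∀ (Ω : Type) (m : MeasurableSpace Ω) (P : Measure Ω), IsProbabilityMeasure P →
  ∀ (F : Filtration ℝ≥0 m), (∀ s : Set Ω, P s = 0 → MeasurableSet[F 0] s) →
  ∀ X : ℝ≥0 → Ω → ℝ, Martingale X F P → (∀ᵐ ω ∂P, Continuous fun t => X t ω) →
  ∀ τ : Ω → ℝ≥0∞, (∀ t : ℝ≥0, MeasurableSet[F t] {ω | τ ω ≤ t}) → Martingale (stopped X τ) F P

/-- ZER (200 lines, `S_UIL → S_VIT → S_ZER`). **A continuous martingale of finite variation is constant.** Fix `T`, `K > 0`; `u k = min(k, 2^j) T/2^j`, `Δ_k = Y (u (k+1)) - Y (u k)`,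
`V_k = ∑_{i<k} |Δ_i|`, `κ = min {k : V_k > K}`, `2^j` if there is none below `2^j`. `f y = √(1+y²) - 1`: `|f'| ≤ 1`, `0 ≤ f'' ≤ 1`, `f y ≤ |y|`, `f y > 0` if `y ≠ 0`;
`R_k = f (Y (u (k+1))) - f (Y (u k)) - f' (Y (u k)) Δ_k ≤ min (Δ_k^2/2, 2 |Δ_k|)`. As `{k < κ} ∈ F (u k)` and `f'` is bounded, `∫ 1_{k<κ} f' (Y (u k)) Δ_k = 0`, so
`∫ f (Y (u κ)) = ∫ ∑_{k<κ} R_k ≤ ∫ (K/2) min (max_k |Δ_k|, K) + 2 ∫ |Δ_{κ-1}|` (`V_{κ-1} ≤ K`). The first term tends to `0` (uniform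
continuity on `[0, T]`, bounded convergence). `|Δ_{κ-1}| ≤ |Y (u κ)| + K`, and tends to `0` a.s., and the `Y (u κ)` (`j → ∞`) are uniformly integrable by `UIL`: the second term tends to `0`, too
(apply `VIT` to ... or: `∫ |Δ_{κ-1}| ≤ ∫ min (max_k |Δ_k|, K + C) + 2 ∫_{|Y (u κ)| > C} (|Y (u κ)| + K)`, and the last term is `≤ 2 ∫_{|Y (u κ)| > C} (|Y T| + K)`, small for large `C`).
If the variation of the path on `[0, T]` is `≤ K`, then `κ = 2^j`, `Y (u κ) = Y T`. So `∫ 1_{variation ≤ K} f (Y T) = 0` (the set `{sup_j V_{2^j} ≤ K}`), `Y T = 0` a.s. there; `K → ∞`. Then all rational `T`,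
and continuity. -/
def S_ZER : Prop := ∀ (Ω : Type) (m : MeasurableSpace Ω) (P : Measure Ω), IsProbabilityMeasure P →
  ∀ (F : Filtration ℝ≥0 m) (Y : ℝ≥0 → Ω → ℝ), Martingale Y F P → (∀ᵐ ω ∂P, Y 0 ω = 0) →
  (∀ᵐ ω ∂P, Continuous fun t => Y t ω) →
  (∀ᵐ ω ∂P, LocallyBoundedVariationOn (fun t => Y t ω) univ) → ∀ᵐ ω ∂P, ∀ t, Y t ω = 0

/-- UNI (80 lines, `S_OST → S_ZER → S_UNI`). With the stopping times `τ n` of `L`: `(stopped L (τ n) - L 0) - (stopped N (τ n) - N 0)` is a martingale (`OST`), continuous, `0` at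
`0`, of finite variation (composition of a function of locally bounded variation with the monotone `t ↦ min t τ`), so it is `0`: `L = N` on `[0, τ n]`, `n → ∞`. -/
def S_UNI : Prop := ∀ (Ω : Type) (m : MeasurableSpace Ω) (P : Measure Ω), IsProbabilityMeasure P →
  ∀ (F : Filtration ℝ≥0 m), (∀ s : Set Ω, P s = 0 → MeasurableSet[F 0] s) →
  ∀ L N : ℝ≥0 → Ω → ℝ, CLM F P L → Martingale N F P → (∀ᵐ ω ∂P, Continuous fun t => N t ω) →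
  (∀ᵐ ω ∂P, L 0 ω = N 0 ω) →
  (∀ᵐ ω ∂P, LocallyBoundedVariationOn (fun t => L t ω - N t ω) univ) → ∀ᵐ ω ∂P, ∀ t, L t ω = N t ω

end Run7.h800.RG
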