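import Pool.Agent.Run7.h800.RG.Main
import Pool.Agent.Run7.h800.RG.Stm2

set_option autoImplicit false

open scoped ENNReal NNReal Topology
open MeasureTheory ProbabilityTheory Set Filter

namespace Run7.h800.RG

/-- `X = N + A`, `N` a continuous local martingale, `A` continuous, adapted, of finite variation and `A_0 = 0`. -/
structure Decomp {Ω : Type} {m : MeasurableSpace Ω} (F : Filtration ℝ≥0 m) (P : Measure Ω)
    (X N A : ℝ≥0 → Ω → ℝ) : Prop where
  mart : CLM F P N
  meas : ∀ t, Measurable[F t] (A t)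
  path : ∀ᵐ ω ∂P, Continuous (fun t => A t ω) ∧ A 0 ω = 0 ∧
    LocallyBoundedVariationOn (fun t => A t ω) univ
  eq : ∀ᵐ ω ∂P, ∀ t, X t ω = N t ω + A t ω

/-- `Q = [N, N]`. -/
structure QVar {Ω : Type} {m : MeasurableSpace Ω} (F : Filtration ℝ≥0 m) (P : Measure Ω)
    (N Q : ℝ≥0 → Ω → ℝ) : Prop where
  meas : ∀ t, Measurable[F t] (Q t)
  path : ∀ᵐ ω ∂P, Continuous (fun t => Q t ω) ∧ Q 0 ω = 0 ∧ Monotone (fun t => Q t ω)
  mart : CLM F P (fun t ω => (N t ω) ^ 2 - Q t ω)

/-- `X` is a continuous semimartingale. -/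
def Semi {Ω : Type} {m : MeasurableSpace Ω} (F : Filtration ℝ≥0 m) (P : Measure Ω)
    (X : ℝ≥0 → Ω → ℝ) : Prop := ∃ N A : ℝ≥0 → Ω → ℝ, Decomp F P X N A

/-- `X` is a regular continuous semimartingale. -/
def Reg {Ω : Type} {m : MeasurableSpace Ω} (F : Filtration ℝ≥0 m) (P : Measure Ω)
    (X : ℝ≥0 → Ω → ℝ) : Prop := ∃ N A Q : ℝ≥0 → Ω → ℝ, Decomp F P X N A ∧ QVar F P N Q ∧
      ∀ᵐ ω ∂P, ACon (fun t => A t ω) (fun t => Q t ω)

theorem lbv_sub {f g : ℝ≥0 → ℝ} {s : Set ℝ≥0} (hf : LocallyBoundedVariationOn f s)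
    (hg : LocallyBoundedVariationOn g s) : LocallyBoundedVariationOn (fun t => f t - g t) s := by
  intro a b ha hb
  have h : eVariationOn (fun t => f t - g t) (s ∩ Icc a b) ≤
      eVariationOn f (s ∩ Icc a b) + eVariationOn g (s ∩ Icc a b) := by
    refine iSup_le ?_
    rintro ⟨n, u, hu, us⟩
    have h1 := eVariationOn.sum_le (f := f) (s := s ∩ Icc a b) (n := n) hu us
    have h2 := eVariationOn.sum_le (f := g) (s := s ∩ Icc a b) (n := n) hu us
    refine le_trans ?_ (add_le_add h1 h2)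
    rw [← Finset.sum_add_distrib]
    refine Finset.sum_le_sum fun i _ => ?_
    rw [edist_dist, edist_dist, edist_dist, ← ENNReal.ofReal_add dist_nonneg dist_nonneg]
    exact ENNReal.ofReal_le_ofReal (dist_sub_sub_le _ _ _ _)
  exact ne_top_of_le_ne_top (ENNReal.add_ne_top.2 ⟨hf a b ha hb, hg a b ha hb⟩) h

/-- a continuous martingale is a continuous local martingale -/
theorem clm_of_martingale {Ω : Type} {m : MeasurableSpace Ω} {F : Filtration ℝ≥0 m} {P : Measure Ω}
    [IsProbabilityMeasure P] {X : ℝ≥0 → Ω → ℝ} (hX : Martingale X F P)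
    (hc : ∀ ω, Continuous fun t => X t ω) : CLM F P X where
  cont := ae_of_all _ hc
  meas := fun t => (hX.1 t).measurable
  loc := by
    refine ⟨fun _ _ => ∞, ?_, ae_of_all _ fun _ _ => le_rfl, ae_of_all _ fun _ => tendsto_const_nhds, ?_⟩
    · intro n t
      have : {ω : Ω | (∞ : ℝ≥0∞) ≤ (t : ℝ≥0∞)} = ∅ := by
        ext ω
        simp
      rw [this]
      exact @MeasurableSet.empty _ (F t)
    · intro n
      have h1 : Martingale (fun _ => X 0) F P :=
        martingale_const_fun F P (hX.1 0) (hX.integrable 0)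
      have h2 := hX.sub h1
      have e : (fun t ω => stopped X (fun _ => ∞) t ω - X 0 ω) = X - fun _ => X 0 := by
        funext t ω
        simp [stopped]
      rw [e]
      exact h2

/-- **The disproof.** -/
def S_FIN : Prop := ∃ (Ω : Type) (m : MeasurableSpace Ω) (P : Measure Ω) (F G : Filtration ℝ≥0 m)
    (X : ℝ≥0 → Ω → ℝ), IsProbabilityMeasure P ∧ P.IsComplete ∧
    (∀ s : Set Ω, P s = 0 → MeasurableSet[F 0] s) ∧ (∀ s : Set Ω, P s = 0 → MeasurableSet[G 0] s) ∧
    CLM F P X ∧ Semi G P X ∧ ¬ Reg G P X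

theorem t_FIN : S_MAIN → S_UNI → S_FIN := by
  rintro ⟨Ω, m, P, F, G, X, N, V, hP, hcomp, hF0, hG0, hXc, hXm, hNc, hNm, hNs, hQm, hVc, hVm, hV0,
    hVfv, hXeq, hbad⟩ hU
  have hbv : ∀ ω, LocallyBoundedVariationOn (fun t => V t ω) univ := by
    intro ω
    obtain ⟨f, g, hf, hg, e⟩ := hVfv ω
    have : (fun t => V t ω) = fun t => f t - g t := funext e
    rw [this]
    exact lbv_sub ((hf.monotoneOn univ).locallyBoundedVariationOn)
      ((hg.monotoneOn univ).locallyBoundedVariationOn)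
  refine ⟨Ω, m, P, F, G, X, hP, hcomp, hF0, hG0, clm_of_martingale hXm hXc, ⟨N, V, ?_⟩, ?_⟩
  · exact ⟨clm_of_martingale hNm hNc, hVm, ae_of_all _ fun ω => ⟨hVc ω, hV0 ω, hbv ω⟩,
      ae_of_all _ fun ω t => hXeq t ω⟩
  · rintro ⟨N₂, A₂, Q₂, hD, hQ, hac⟩
    have h1 : ∀ᵐ ω ∂P, ∀ t, N₂ t ω = N t ω := by
      refine hU Ω m P hP G hG0 N₂ N hD.mart hNm (ae_of_all _ hNc) ?_ ?_
      · filter_upwards [hD.path, hD.eq] with ω p e
        have e1 := e 0
        rw [p.2.1, add_zero, hXeq 0 ω, hV0 ω, add_zero] at e1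
        exact e1.symm
      · filter_upwards [hD.path, hD.eq] with ω p e
        have e1 : (fun t => N₂ t ω - N t ω) = fun t => V t ω - A₂ t ω := by
          funext t
          have := e t
          rw [hXeq t ω] at this
          linarith
        rw [e1]
        exact lbv_sub (hbv ω) p.2.2
    have h2 : ∀ᵐ ω ∂P, ∀ t, (N₂ t ω) ^ 2 - Q₂ t ω = (N t ω) ^ 2 - (t : ℝ) := by
      refine hU Ω m P hP G hG0 (fun t ω => (N₂ t ω) ^ 2 - Q₂ t ω) (fun t ω => (N t ω) ^ 2 - (t : ℝ))
        hQ.mart hQm (ae_of_all _ fun ω => ?_) ?_ ?_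
      · have := hNc ω
        have h3 : Continuous fun t : ℝ≥0 => (t : ℝ) := NNReal.continuous_coe
        exact (this.pow 2).sub h3
      · filter_upwards [hQ.path, h1] with ω p e
        rw [p.2.1, e 0]
        simp
      · filter_upwards [hQ.path, h1] with ω p e
        have e1 : (fun t => (N₂ t ω) ^ 2 - Q₂ t ω - ((N t ω) ^ 2 - (t : ℝ))) =
            fun t : ℝ≥0 => (t : ℝ) - Q₂ t ω := by
          funext t
          rw [e t]
          ring
        rw [e1]
        have h3 : Monotone fun t : ℝ≥0 => (t : ℝ) := fun a b h => by exact_mod_cast h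
        exact lbv_sub ((h3.monotoneOn univ).locallyBoundedVariationOn)
          ((p.2.2.monotoneOn univ).locallyBoundedVariationOn)
    have h3 : ∀ᵐ ω ∂P, ACon (fun t => V t ω) (fun t => (t : ℝ)) := by
      filter_upwards [h1, h2, hD.eq, hac] with ω e1 e2 e3 e4
      have k1 : (fun t => A₂ t ω) = fun t => V t ω := by
        funext t
        have := e3 t
        rw [hXeq t ω, e1 t] at this
        linarith
      have k2 : (fun t => Q₂ t ω) = fun t : ℝ≥0 => (t : ℝ) := by
        funext t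
        have := e2 t
        rw [e1 t] at this
        linarith
      rw [k1, k2] at e4
      exact e4
    rw [ae_iff] at h3
    rw [h3] at hbad
    simp at hbad

end Run7.h800.RG
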