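import Pool.Agent.Run7.h800.RG.Stm

set_option autoImplicit false

open scoped ENNReal NNReal Topology
open MeasureTheory ProbabilityTheory Set Filter

namespace Run7.h800.RG

instance PE_prob : IsProbabilityMeasure PE := by
  constructor
  unfold PE
  simp only [Measure.add_apply, Measure.smul_apply, smul_eq_mul, measure_univ, mul_one,
    Measure.restrict_apply_univ, Real.volume_Ico, sub_zero, ENNReal.ofReal_one]
  exact ENNReal.inv_two_add_inv_two

theorem prim_eq (g : ℝ → ℝ) (t : ℝ≥0) :
    ∫ u in Ico (0 : ℝ) (min t 1), g u = ∫ u in (0 : ℝ)..(min (t : ℝ) 1), (Ico (0 : ℝ) 1).indicator g u := by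
  rw [intervalIntegral.integral_of_le (by positivity), integral_Ioc_eq_integral_Ioo,
    ← integral_Ico_eq_integral_Ioo]
  refine setIntegral_congr_fun measurableSet_Ico fun u hu => ?_
  rw [indicator_of_mem]
  exact ⟨hu.1, hu.2.trans_le (min_le_right _ _)⟩

theorem t_GDB : S_FIL → S_GDB := by
  intro hFIL Ω₀ m PB W hW b hb
  have hprob := hW.prob
  have hm : Measurable b := hb.meas.mono (iSup_le (hFIL Ω₀ m PB W hW).1) le_rfl
  have hsw : Measurable fun p : (Ω₀ × ℝ) × ℝ => b (p.2, p.1) := hm.comp measurable_swap
  have hG : MeasurableSet (Gd b) := by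
    unfold Gd
    exact _root_.measurableSet_integrable (f := fun ω u => b (u, ω)) (μ := volume.restrict (Ico 0 1))
      hsw.stronglyMeasurable
  have hint : Integrable b ((volume.restrict (Ico (0 : ℝ) 1)).prod (PB.prod PE)) := hb.int
  have hG0 : (PB.prod PE) (Gd b)ᶜ = 0 := by
    have := hint.prod_left_ae
    rw [ae_iff] at this
    exact this
  have hmeas : ∀ t : ℝ≥0, Measurable (a b t) := by
    intro t
    unfold a
    refine Measurable.ite hG ?_ measurable_const
    have := (hsw.stronglyMeasurable).integral_prod_right' (ν := volume.restrict (Ico (0 : ℝ) (min t 1)))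
    exact this.measurable
  have hmono : ∀ ω, Monotone fun t => a b t ω := by
    intro ω s t hst
    simp only [a]
    split_ifs with h
    · refine setIntegral_mono_set ?_ (ae_of_all _ fun u => hb.nonneg _) ?_
      · exact IntegrableOn.mono_set h (Ico_subset_Ico_right (min_le_right _ _))
      · refine (Ico_subset_Ico_right ?_).eventuallyLE
        exact min_le_min (by exact_mod_cast hst) le_rfl
    · exact le_rfl
  have hnn : ∀ t ω, 0 ≤ a b t ω := by
    intro t ω
    simp only [a]
    split_ifs with h
    · exact integral_nonneg fun u => hb.nonneg _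
    · exact le_rfl
  refine ⟨hG, hG0, ?_, hmono, ?_, hmeas, ?_⟩
  · intro ω
    by_cases h : ω ∈ Gd b
    · have e : (fun t : ℝ≥0 => a b t ω) = fun t : ℝ≥0 => ∫ u in (0 : ℝ)..(min (t : ℝ) 1),
          (Ico (0 : ℝ) 1).indicator (fun u => b (u, ω)) u := by
        funext t
        simp only [a, if_pos h]
        exact prim_eq _ t
      rw [e]
      have h1 : Integrable ((Ico (0 : ℝ) 1).indicator (fun u => b (u, ω))) volume :=
        (integrable_indicator_iff measurableSet_Ico).2 h
      have h2 := intervalIntegral.continuous_primitive (μ := volume)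
        (fun x y => h1.intervalIntegrable (a := x) (b := y)) 0
      exact h2.comp (by fun_prop : Continuous fun t : ℝ≥0 => min (t : ℝ) 1)
    · have e : (fun t : ℝ≥0 => a b t ω) = fun _ => 0 := by
        funext t
        simp only [a, if_neg h]
      rw [e]
      exact continuous_const
  · intro ω
    simp [a]
  · intro t
    have h1 : Integrable (fun ω => ∫ u in Ico (0 : ℝ) 1, b (u, ω)) (PB.prod PE) :=
      hint.integral_prod_right
    refine h1.mono' (hmeas t).aestronglyMeasurable (ae_of_all _ fun ω => ?_)
    rw [Real.norm_eq_abs, abs_of_nonneg (hnn t ω)]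
    simp only [a]
    split_ifs with h
    · refine setIntegral_mono_set h (ae_of_all _ fun u => hb.nonneg _) ?_
      exact (Ico_subset_Ico_right (min_le_right _ _)).eventuallyLE
    · exact integral_nonneg fun u => hb.nonneg _

end Run7.h800.RG
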