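import Pool.Agent.Run7.h800.RG.Stm

set_option autoImplicit false

open scoped ENNReal NNReal Topology
open MeasureTheory ProbabilityTheory Set Filter

namespace Run7.h800.RG

namespace GMA

instance PE_prob : IsProbabilityMeasure PE := by
  constructor
  unfold PE
  simp only [Measure.add_apply, Measure.smul_apply, smul_eq_mul, measure_univ, mul_one,
    Measure.restrict_apply_univ, Real.volume_Ico, sub_zero, ENNReal.ofReal_one]
  exact ENNReal.inv_two_add_inv_two

/-- independence is kept if an independent variable is added to the second one -/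
theorem indep_prod {Ω₀ β γ δ : Type} [MeasurableSpace Ω₀] [MeasurableSpace β] [MeasurableSpace γ]
    [MeasurableSpace δ] (P : Measure Ω₀) [IsProbabilityMeasure P] (R : Measure δ) [IsProbabilityMeasure R]
    {f : Ω₀ → β} {g : Ω₀ → γ} (hf : Measurable f) (hg : Measurable g) (h : IndepFun f g P) :
    IndepFun (fun ω : Ω₀ × δ => f ω.1) (fun ω : Ω₀ × δ => (g ω.1, ω.2)) (P.prod R) := by
  have hf1 : Measurable fun ω : Ω₀ × δ => f ω.1 := hf.comp measurable_fst
  have hg1 : Measurable fun ω : Ω₀ × δ => (g ω.1, ω.2) := (hg.comp measurable_fst).prodMk measurable_snd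
  rw [indepFun_iff_map_prod_eq_prod_map_map hf1.aemeasurable hg1.aemeasurable]
  have h0 := (indepFun_iff_map_prod_eq_prod_map_map hf.aemeasurable hg.aemeasurable).1 h
  have i1 : IsProbabilityMeasure (P.map f) := Measure.isProbabilityMeasure_map hf.aemeasurable
  have i2 : IsProbabilityMeasure (P.map g) := Measure.isProbabilityMeasure_map hg.aemeasurable
  have e1 : (P.prod R).map (fun ω : Ω₀ × δ => f ω.1) = P.map f := by
    have : (fun ω : Ω₀ × δ => f ω.1) = f ∘ Prod.fst := rfl
    rw [this, ← Measure.map_map hf measurable_fst]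
    congr 1
    simp [Measure.map_fst_prod]
  have e2 : (P.prod R).map (fun ω : Ω₀ × δ => (g ω.1, ω.2)) = (P.map g).prod R := by
    have := Measure.map_prod_map P R hg measurable_id
    rw [Measure.map_id] at this
    rw [this]
    rfl
  rw [e1, e2]
  have e3 : (fun ω : Ω₀ × δ => (f ω.1, (g ω.1, ω.2))) =
      MeasurableEquiv.prodAssoc ∘ (Prod.map (fun x => (f x, g x)) id) := rfl
  rw [e3, ← Measure.map_map MeasurableEquiv.prodAssoc.measurable (by fun_prop),
    ← Measure.map_prod_map P R (hf.prodMk hg) measurable_id, h0, Measure.map_id]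
  exact Measure.prodAssoc_prod

variable {Ω₀ : Type} [m : MeasurableSpace Ω₀] {PB : Measure Ω₀} {W : ℝ≥0 → Ω₀ → ℝ}

theorem G0_le_comap (s : ℝ≥0) : G0 W s ≤ MeasurableSpace.comap
    (fun ω : Ω₀ × ℝ => ((fun r : Iic s => W r ω.1), ω.2)) inferInstance := by
  have hZ : Measurable[MeasurableSpace.comap (fun ω : Ω₀ × ℝ => ((fun r : Iic s => W r ω.1), ω.2))
      inferInstance] (fun ω : Ω₀ × ℝ => ((fun r : Iic s => W r ω.1), ω.2)) := comap_measurable _
  unfold G0
  refine sup_le (iSup_le fun r => iSup_le fun hr => ?_) ?_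
  · rw [← measurable_iff_comap_le]
    exact ((measurable_pi_apply (⟨r, hr⟩ : Iic s)).comp measurable_fst).comp hZ
  · rw [← measurable_iff_comap_le]
    exact (measurable_snd : Measurable (Prod.snd : (Iic s → ℝ) × ℝ → ℝ)).comp hZ

theorem G0_le (hW : BM PB W) (s : ℝ≥0) : G0 W s ≤ (inferInstance : MeasurableSpace (Ω₀ × ℝ)) := by
  unfold G0
  refine sup_le (iSup_le fun r => iSup_le fun hr => ?_) ?_
  · rw [← measurable_iff_comap_le]
    exact (hW.meas r).comp measurable_fst
  · rw [← measurable_iff_comap_le]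
    exact measurable_snd

theorem indep (hW : BM PB W) {s t : ℝ≥0} (hst : s ≤ t) {Y : Ω₀ × ℝ → ℝ}
    (hY : Measurable[G0 W s] Y) :
    IndepFun (fun ω : Ω₀ × ℝ => W t ω.1 - W s ω.1) Y (PB.prod PE) := by
  have hprob := hW.prob
  have h1 := (hW.bm.indepFun_shift s)
  have h2 : IndepFun (fun ω => W t ω - W s ω) (fun ω (r : Iic s) => W r ω) PB := by
    have hev : Measurable (fun x : ℝ≥0 → ℝ => x (t - s)) := by fun_prop
    have := IndepFun.comp h1 hev (measurable_id (α := (Iic s → ℝ)))
    have e : (fun ω => W t ω - W s ω) = (fun x : ℝ≥0 → ℝ => x (t - s)) ∘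
        (fun ω t => W (s + t) ω - W s ω) := by
      funext ω
      simp only [Function.comp_apply]
      rw [add_tsub_cancel_of_le hst]
    rw [e]
    exact this
  have h3 := indep_prod PB PE ((hW.meas t).sub (hW.meas s))
    (measurable_pi_lambda _ fun r : Iic s => hW.meas r) h2
  rw [IndepFun_iff_Indep] at h3 ⊢
  refine indep_of_indep_of_le_right h3 ?_
  refine (measurable_iff_comap_le.1 hY).trans (G0_le_comap s)

theorem integral_fst' (f : Ω₀ → ℝ) (hW : BM PB W) :
    ∫ ω, f ω.1 ∂(PB.prod PE) = ∫ ω, f ω ∂PB := by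
  have hprob := hW.prob
  rw [integral_fun_fst]
  simp

theorem memLp (hW : BM PB W) (t : ℝ≥0) : MemLp (fun ω : Ω₀ × ℝ => W t ω.1) 2 (PB.prod PE) := by
  have hprob := hW.prob
  have h := (hW.bm.isGaussianProcess.hasGaussianLaw_eval t).memLp_two
  exact h.comp_measurePreserving measurePreserving_fst

theorem sq (hW : BM PB W) {s t : ℝ≥0} (hst : s ≤ t) :
    ∫ ω, (W t ω.1 - W s ω.1) ^ 2 ∂(PB.prod PE) = (t : ℝ) - s := by
  have hprob := hW.prob
  rw [integral_fst' (fun x => (W t x - W s x) ^ 2) hW]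
  have h1 := hW.bm.hasLaw_sub t s
  have h2 := h1.variance_eq
  rw [variance_id_gaussianReal] at h2
  have h3 : ∫ x, (W t - W s) x ∂PB = 0 := by
    rw [h1.integral_eq, integral_id_gaussianReal]
  rw [variance_of_integral_eq_zero h1.aemeasurable h3] at h2
  simp only [Pi.sub_apply] at h2
  rw [h2, coe_nndist, Real.dist_eq]
  change |(t : ℝ) - s| = _
  rw [abs_of_nonneg]
  have : (s : ℝ) ≤ t := by exact_mod_cast hst
  linarith

theorem mean (hW : BM PB W) (s t : ℝ≥0) :
    ∫ ω, (W t ω.1 - W s ω.1) ∂(PB.prod PE) = 0 := by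
  have hprob := hW.prob
  rw [integral_fst' (fun x => (W t x - W s x)) hW, integral_sub (hW.bm.integrable_eval t)
    (hW.bm.integrable_eval s), hW.bm.integral_eval, hW.bm.integral_eval, sub_zero]

end GMA

open GMA in
theorem t_GMA : S_GMA := by
  intro Ω₀ m PB W hW
  have hprob := hW.prob
  have hL2 : ∀ t, MemLp (fun ω : Ω₀ × ℝ => W t ω.1) 2 (PB.prod PE) := GMA.memLp hW
  have hI : ∀ t : ℝ≥0, Integrable (fun ω : Ω₀ × ℝ => W t ω.1) (PB.prod PE) :=
    fun t => (hL2 t).integrable (by norm_num)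
  have hS : ∀ t : ℝ≥0, Integrable (fun ω : Ω₀ × ℝ => (W t ω.1) ^ 2) (PB.prod PE) :=
    fun t => (hL2 t).integrable_sq
  have hwm : ∀ t : ℝ≥0, Measurable fun ω : Ω₀ × ℝ => W t ω.1 := fun t => (hW.meas t).comp measurable_fst
  refine ⟨hI, fun t => (hS t).sub (integrable_const _), ?_⟩
  intro s t hst E hE
  have hE' : MeasurableSet E := G0_le hW s E hE
  have hWs : Measurable[G0 W s] fun ω : Ω₀ × ℝ => W s ω.1 := by
    have h0 : Measurable[MeasurableSpace.comap (fun ω : Ω₀ × ℝ => W s ω.1) inferInstance]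
      (fun ω : Ω₀ × ℝ => W s ω.1) := comap_measurable _
    refine h0.mono ?_ le_rfl
    unfold G0
    exact le_sup_of_le_left (le_iSup_of_le s (le_iSup_of_le le_rfl le_rfl))
  have h1 : Measurable[G0 W s] (E.indicator fun _ => (1 : ℝ)) :=
    (@measurable_const _ _ _ (G0 W s) _).indicator hE
  have h2 : Measurable[G0 W s] (E.indicator fun ω : Ω₀ × ℝ => W s ω.1) := hWs.indicator hE
  have k1 : ∫ ω in E, (W t ω.1 - W s ω.1) ∂(PB.prod PE) = 0 := by
    have := (indep hW hst h1).integral_fun_mul_eq_mul_integral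
      ((hwm t).sub (hwm s)).aestronglyMeasurable
      (h1.mono (G0_le hW s) le_rfl).aestronglyMeasurable
    rw [GMA.mean hW, zero_mul] at this
    rw [← this, ← integral_indicator hE']
    refine integral_congr_ae (ae_of_all _ fun ω => ?_)
    by_cases h : ω ∈ E <;> simp [h]
  have k2 : ∫ ω in E, W s ω.1 * (W t ω.1 - W s ω.1) ∂(PB.prod PE) = 0 := by
    have := (indep hW hst h2).integral_fun_mul_eq_mul_integral
      ((hwm t).sub (hwm s)).aestronglyMeasurable
      (h2.mono (G0_le hW s) le_rfl).aestronglyMeasurable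
    rw [GMA.mean hW, zero_mul] at this
    rw [← this, ← integral_indicator hE']
    refine integral_congr_ae (ae_of_all _ fun ω => ?_)
    by_cases h : ω ∈ E <;> simp [h, mul_comm]
  have k3 : ∫ ω in E, (W t ω.1 - W s ω.1) ^ 2 ∂(PB.prod PE) = ∫ ω in E, ((t : ℝ) - s) ∂(PB.prod PE) := by
    have hi := (indep hW hst h1).comp (φ := fun x : ℝ => x ^ 2) (ψ := id) (by fun_prop) measurable_id
    have := hi.integral_fun_mul_eq_mul_integral
      (by
        have : Measurable ((fun x : ℝ => x ^ 2) ∘ fun ω : Ω₀ × ℝ => W t ω.1 - W s ω.1) :=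
          (by fun_prop : Measurable fun x : ℝ => x ^ 2).comp ((hwm t).sub (hwm s))
        exact this.aestronglyMeasurable)
      (h1.mono (G0_le hW s) le_rfl).aestronglyMeasurable
    simp only [Function.comp_apply, id] at this
    rw [GMA.sq hW hst] at this
    have e : ∫ ω in E, (W t ω.1 - W s ω.1) ^ 2 ∂(PB.prod PE) =
        ∫ ω, (W t ω.1 - W s ω.1) ^ 2 * (E.indicator (fun _ => (1 : ℝ)) ω) ∂(PB.prod PE) := by
      rw [← integral_indicator hE']
      refine integral_congr_ae (ae_of_all _ fun ω => ?_)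
      by_cases h : ω ∈ E <;> simp [h]
    rw [e, this, ← integral_indicator hE', ← integral_const_mul]
    refine integral_congr_ae (ae_of_all _ fun ω => ?_)
    by_cases h : ω ∈ E <;> simp [h]
  have hX : Integrable (fun ω : Ω₀ × ℝ => W t ω.1 - W s ω.1) (PB.prod PE) := (hI t).sub (hI s)
  have hXX : Integrable (fun ω : Ω₀ × ℝ => (W t ω.1 - W s ω.1) ^ 2) (PB.prod PE) :=
    ((hL2 t).sub (hL2 s)).integrable_sq
  have hXY : Integrable (fun ω : Ω₀ × ℝ => W s ω.1 * (W t ω.1 - W s ω.1)) (PB.prod PE) :=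
    (hL2 s).integrable_mul ((hL2 t).sub (hL2 s))
  refine ⟨?_, ?_⟩
  · have := integral_sub (μ := (PB.prod PE).restrict E) (hI t).integrableOn (hI s).integrableOn
    rw [k1] at this
    linarith
  · have e1 : ∫ ω in E, (((W t ω.1) ^ 2 - (t : ℝ)) - ((W s ω.1) ^ 2 - (s : ℝ))) ∂(PB.prod PE) = 0 := by
      have : ∀ ω : Ω₀ × ℝ, (((W t ω.1) ^ 2 - (t : ℝ)) - ((W s ω.1) ^ 2 - (s : ℝ))) =
          ((W t ω.1 - W s ω.1) ^ 2 - ((t : ℝ) - s)) + 2 * (W s ω.1 * (W t ω.1 - W s ω.1)) := fun ω => by ring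
      simp_rw [this]
      have hA : Integrable (fun ω : Ω₀ × ℝ => (W t ω.1 - W s ω.1) ^ 2 - ((t : ℝ) - s))
        ((PB.prod PE).restrict E) := (hXX.sub (integrable_const _)).integrableOn
      have hB : Integrable (fun ω : Ω₀ × ℝ => 2 * (W s ω.1 * (W t ω.1 - W s ω.1)))
        ((PB.prod PE).restrict E) := (hXY.const_mul 2).integrableOn
      rw [integral_add hA hB,
        integral_sub hXX.integrableOn (integrable_const _), k3, integral_const_mul, k2]
      ring
    have hC : ∀ r : ℝ≥0, Integrable (fun ω : Ω₀ × ℝ => (W r ω.1) ^ 2 - (r : ℝ))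
        ((PB.prod PE).restrict E) := fun r => ((hS r).sub (integrable_const _)).integrableOn
    have e2 := integral_sub (hC t) (hC s)
    rw [e1] at e2
    linarith

end Run7.h800.RG
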