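import Pool.Agent.Run7.h800.RG.Stm

set_option autoImplicit false

open scoped ENNReal NNReal Topology
open MeasureTheory ProbabilityTheory Set Filter

namespace Run7.h800.RG

theorem NN_pos (n : ℕ) : 0 < NN n := by
  induction n with
  | zero => simp [NN]
  | succ n ih => simp only [NN, mm]; positivity

theorem gt_coe (n j : ℕ) : ((gt n j : ℝ≥0) : ℝ) = (j : ℝ) / (NN n : ℝ) := by
  unfold gt
  rw [NNReal.coe_div, NNReal.coe_natCast, NNReal.coe_natCast]

theorem gt_mono (n : ℕ) : Monotone (gt n) := by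
  intro i j hij
  unfold gt
  gcongr

theorem t_INC : S_INC := by
  intro Ω₀ m PB W hW n j
  have hprob := hW.prob
  have hind := hW.bm.hasIndepIncrements j (fun i : Fin (j + 1) => gt n i)
    (fun a b hab => gt_mono n (by exact_mod_cast hab))
  have hmeas : ∀ i : Fin j, AEMeasurable (fun ω => W (gt n (i + 1)) ω - W (gt n i) ω) PB :=
    fun i => ((hW.meas _).sub (hW.meas _)).aemeasurable
  have h2 := (iIndepFun_iff_map_fun_eq_pi_map (μ := PB)
    (f := fun (i : Fin j) ω => W (gt n (i + 1)) ω - W (gt n i) ω) hmeas).1 (by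
      convert hind using 3
      simp)
  rw [h2]
  congr 1
  funext i
  have h3 := (hW.bm.hasLaw_sub (gt n (i + 1)) (gt n i)).map_eq
  have h4 : (W (gt n (i + 1)) - W (gt n i)) = fun ω => W (gt n (i + 1)) ω - W (gt n i) ω := rfl
  rw [h4] at h3
  rw [h3]
  congr 1
  have hN : (0 : ℝ) < NN n := by exact_mod_cast NN_pos n
  have e1 : ((gt n (i + 1) : ℝ≥0) : ℝ) = ((i : ℕ) + 1 : ℝ) / NN n := by
    rw [gt_coe]; push_cast; ring
  have e2 : ((gt n i : ℝ≥0) : ℝ) = ((i : ℕ) : ℝ) / NN n := gt_coe _ _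
  apply NNReal.eq
  rw [coe_nndist, Real.dist_eq]
  change |((gt n (i + 1) : ℝ≥0) : ℝ) - ((gt n i : ℝ≥0) : ℝ)| = _
  rw [e1, e2, ← sub_div, add_sub_cancel_left, abs_of_pos (by positivity)]
  simp

end Run7.h800.RG
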