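import Pool.Agent.Run7.h800.RG.Stm2

set_option autoImplicit false

open scoped ENNReal NNReal Topology
open MeasureTheory ProbabilityTheory Set Filter

namespace Run7.h800.RG

namespace ZER

/-! ### the function `f` -/

noncomputable def ff (y : ℝ) : ℝ := √(1 + y ^ 2) - 1

theorem one_le_s (y : ℝ) : 1 ≤ √(1 + y ^ 2) := by
  rw [Real.one_le_sqrt]; nlinarith [sq_nonneg y]

theorem ff_nonneg (y : ℝ) : 0 ≤ ff y := by
  unfold ff; linarith [one_le_s y]

theorem ff_eq_zero {y : ℝ} (h : ff y = 0) : y = 0 := by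
  unfold ff at h
  have h1 : √(1 + y ^ 2) = 1 := by linarith
  rw [Real.sqrt_eq_one] at h1
  have : y ^ 2 = 0 := by linarith
  exact pow_eq_zero_iff (two_ne_zero) |>.1 this

theorem ff_le (y : ℝ) : ff y ≤ |y| := by
  unfold ff
  have : √(1 + y ^ 2) ≤ 1 + |y| := by
    rw [Real.sqrt_le_iff]
    refine ⟨by positivity, ?_⟩
    nlinarith [abs_nonneg y, sq_abs y]
  linarith

theorem ff_cont : Continuous ff := by
  unfold ff; fun_prop

noncomputable def fd (y : ℝ) : ℝ := y / √(1 + y ^ 2)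

theorem fd_bound (y : ℝ) : |fd y| ≤ 1 := by
  unfold fd
  have hs : 0 < √(1 + y ^ 2) := lt_of_lt_of_le one_pos (one_le_s y)
  rw [abs_div, abs_of_pos hs, div_le_one hs]
  apply Real.le_sqrt_of_sq_le
  rw [sq_abs]; linarith

theorem fd_meas : Measurable fd := by
  unfold fd; fun_prop

theorem ff_step (y h : ℝ) : ff (y + h) - ff y ≤ fd y * h + min (h ^ 2 / 2) (2 * |h|) := by
  unfold ff fd
  set s := √(1 + y ^ 2) with hs
  have h1 : 1 ≤ s := one_le_s y
  have hs0 : 0 < s := by linarith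
  have hs2 : s ^ 2 = 1 + y ^ 2 := Real.sq_sqrt (by positivity)
  have hys : |y| ≤ s := by
    apply Real.le_sqrt_of_sq_le
    rw [sq_abs]; linarith
  have hd : |y / s| ≤ 1 := fd_bound y
  rcases min_choice (h ^ 2 / 2) (2 * |h|) with e | e
  · rw [e]
    have k : √(1 + (y + h) ^ 2) ≤ s + (2 * y * h + h ^ 2) / (2 * s) := by
      rw [Real.sqrt_le_iff]
      constructor
      · have : s + (2 * y * h + h ^ 2) / (2 * s) = (2 + y ^ 2 + (y + h) ^ 2) / (2 * s) := by
          field_simp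
          nlinarith
        rw [this]; positivity
      · have : (s + (2 * y * h + h ^ 2) / (2 * s)) ^ 2 =
            s ^ 2 + (2 * y * h + h ^ 2) + ((2 * y * h + h ^ 2) / (2 * s)) ^ 2 := by
          field_simp
          ring
        rw [this, hs2]
        nlinarith [sq_nonneg ((2 * y * h + h ^ 2) / (2 * s))]
    have k2 : (2 * y * h + h ^ 2) / (2 * s) ≤ y / s * h + h ^ 2 / 2 := by
      have e1 : (2 * y * h + h ^ 2) / (2 * s) = y / s * h + h ^ 2 / 2 / s := by
        field_simp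
      rw [e1]
      have : h ^ 2 / 2 / s ≤ h ^ 2 / 2 := div_le_self (by positivity) h1
      linarith
    linarith
  · rw [e]
    have k : √(1 + (y + h) ^ 2) ≤ s + |h| := by
      rw [Real.sqrt_le_iff]
      refine ⟨by positivity, ?_⟩
      have h3 : y * h ≤ s * |h| := by
        calc y * h ≤ |y * h| := le_abs_self _
          _ = |y| * |h| := abs_mul _ _
          _ ≤ s * |h| := by gcongr
      nlinarith [sq_abs h]
    have k2 : -(|h|) ≤ y / s * h := by
      have : |y / s * h| ≤ 1 * |h| := by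
        rw [abs_mul]; gcongr
      have := neg_abs_le (y / s * h)
      linarith
    linarith

/-! ### the grid -/

noncomputable def uu (T : ℝ≥0) (n k : ℕ) : ℝ≥0 := T * ((min k n : ℕ) : ℝ≥0) / (n : ℝ≥0)

theorem uu_mono (T : ℝ≥0) (n : ℕ) : Monotone (uu T n) := by
  intro i j hij
  unfold uu
  gcongr

theorem uu_zero (T : ℝ≥0) (n : ℕ) : uu T n 0 = 0 := by simp [uu]

theorem uu_self (T : ℝ≥0) {n : ℕ} (hn : 0 < n) : uu T n n = T := by
  have : (n : ℝ≥0) ≠ 0 := by positivity
  simp [uu, this]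

theorem uu_le (T : ℝ≥0) {n : ℕ} (hn : 0 < n) (k : ℕ) : uu T n k ≤ T := by
  rcases le_total k n with h | h
  · exact (uu_mono T n h).trans (uu_self T hn).le
  · have : uu T n k = uu T n n := by simp [uu, h]
    rw [this, uu_self T hn]

variable {Ω : Type} {m : MeasurableSpace Ω} {P : Measure Ω} {F : Filtration ℝ≥0 m} {Y : ℝ≥0 → Ω → ℝ}

noncomputable def Dl (Y : ℝ≥0 → Ω → ℝ) (T : ℝ≥0) (n k : ℕ) (ω : Ω) : ℝ :=
  Y (uu T n (k + 1)) ω - Y (uu T n k) ω

noncomputable def VV (Y : ℝ≥0 → Ω → ℝ) (T : ℝ≥0) (n k : ℕ) (ω : Ω) : ℝ :=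
  ∑ i ∈ Finset.range k, |Dl Y T n i ω|

theorem VV_mono (T : ℝ≥0) (n : ℕ) (ω : Ω) : Monotone fun k => VV Y T n k ω := by
  refine monotone_nat_of_le_succ fun k => ?_
  simp only [VV, Finset.sum_range_succ]
  linarith [abs_nonneg (Dl Y T n k ω)]

theorem abs_le_VV (T : ℝ≥0) (n : ℕ) (ω : Ω) (h0 : Y 0 ω = 0) (k : ℕ) :
    |Y (uu T n k) ω| ≤ VV Y T n k ω := by
  induction k with
  | zero => simp [uu_zero, h0, VV]
  | succ k ih =>
    have e : Y (uu T n (k + 1)) ω = Y (uu T n k) ω + Dl Y T n k ω := by simp [Dl]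
    rw [e]
    have := abs_add_le (Y (uu T n k) ω) (Dl Y T n k ω)
    simp only [VV, Finset.sum_range_succ]
    simp only [VV] at ih
    linarith

/-- telescoping up to the first time that `V > K` -/
theorem tele (K : ℝ) (V : ℕ → ℝ) (hV : Monotone V) (c : ℕ → ℝ) (hc : ∀ k, 0 ≤ c k) (n : ℕ) :
    (V n ≤ K → ∑ k ∈ Finset.range n, (if V k ≤ K then c (k + 1) - c k else 0) + c 0 = c n) ∧
      0 ≤ ∑ k ∈ Finset.range n, (if V k ≤ K then c (k + 1) - c k else 0) + c 0 := by
  induction n with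
  | zero => simp [hc 0]
  | succ n ih =>
    rw [Finset.sum_range_succ]
    by_cases h : V n ≤ K
    · rw [if_pos h]
      have := ih.1 h
      refine ⟨fun _ => by linarith, by linarith [hc (n + 1)]⟩
    · rw [if_neg h, add_zero]
      refine ⟨fun h2 => absurd ((hV (Nat.le_succ n)).trans h2) h, ih.2⟩

theorem abs_setIntegral_le [IsProbabilityMeasure P] (hY : Martingale Y F P) {s t : ℝ≥0} (hst : s ≤ t)
    {B : Set Ω} (hB : MeasurableSet[F s] B) : ∫ ω in B, |Y s ω| ∂P ≤ ∫ ω in B, |Y t ω| ∂P := by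
  have hm : Measurable[F s] (Y s) := (hY.1 s).measurable
  have hB1 : MeasurableSet[F s] (B ∩ {ω | 0 ≤ Y s ω}) :=
    hB.inter (measurableSet_le (@measurable_const _ _ _ (F s) _) hm)
  have hB2 : MeasurableSet[F s] (B ∩ {ω | 0 ≤ Y s ω}ᶜ) :=
    hB.inter (measurableSet_le (@measurable_const _ _ _ (F s) _) hm).compl
  have hC : MeasurableSet {ω | 0 ≤ Y s ω} := F.le s _ (measurableSet_le (@measurable_const _ _ _ (F s) _) hm)
  have e : ∀ r, ∫ ω in B, |Y r ω| ∂P = ∫ ω in B ∩ {ω | 0 ≤ Y s ω}, |Y r ω| ∂P +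
      ∫ ω in B ∩ {ω | 0 ≤ Y s ω}ᶜ, |Y r ω| ∂P := fun r => by
    rw [← integral_inter_add_diff hC (hY.integrable r).abs.integrableOn, diff_eq]
  rw [e, e]
  have k1 := hY.setIntegral_eq hst hB1
  have k2 := hY.setIntegral_eq hst hB2
  have l1 : ∫ ω in B ∩ {ω | 0 ≤ Y s ω}, |Y s ω| ∂P = ∫ ω in B ∩ {ω | 0 ≤ Y s ω}, Y s ω ∂P := by
    refine setIntegral_congr_fun (F.le s _ hB1) fun ω hω => ?_
    exact abs_of_nonneg hω.2
  have l2 : ∫ ω in B ∩ {ω | 0 ≤ Y s ω}ᶜ, |Y s ω| ∂P = - ∫ ω in B ∩ {ω | 0 ≤ Y s ω}ᶜ, Y s ω ∂P := by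
    rw [← integral_neg]
    refine setIntegral_congr_fun (F.le s _ hB2) fun ω hω => ?_
    have : Y s ω < 0 := lt_of_not_ge hω.2
    exact abs_of_neg this
  have m1 : ∫ ω in B ∩ {ω | 0 ≤ Y s ω}, Y t ω ∂P ≤ ∫ ω in B ∩ {ω | 0 ≤ Y s ω}, |Y t ω| ∂P :=
    integral_mono (hY.integrable t).integrableOn (hY.integrable t).abs.integrableOn fun ω => le_abs_self _
  have m2 : - ∫ ω in B ∩ {ω | 0 ≤ Y s ω}ᶜ, Y t ω ∂P ≤ ∫ ω in B ∩ {ω | 0 ≤ Y s ω}ᶜ, |Y t ω| ∂P := by
    rw [← integral_neg]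
    exact integral_mono (hY.integrable t).integrableOn.neg (hY.integrable t).abs.integrableOn
      fun ω => neg_le_abs _
  rw [l1, l2, k1, k2]
  linarith

/-- martingale transform -/
theorem transform [IsProbabilityMeasure P] (hY : Martingale Y F P) {s t : ℝ≥0} (hst : s ≤ t)
    {φ : Ω → ℝ} (hφ : Measurable[F s] φ) (hb : ∀ ω, |φ ω| ≤ 1) :
    Integrable (fun ω => φ ω * (Y t ω - Y s ω)) P ∧ ∫ ω, φ ω * (Y t ω - Y s ω) ∂P = 0 := by
  have hsm : StronglyMeasurable[F s] φ := hφ.stronglyMeasurable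
  have hd : Integrable (fun ω => Y t ω - Y s ω) P := (hY.integrable t).sub (hY.integrable s)
  have hi : Integrable (fun ω => φ ω * (Y t ω - Y s ω)) P := by
    refine hd.bdd_mul (c := 1) (hφ.mono (F.le s) le_rfl).aestronglyMeasurable
      (ae_of_all _ fun ω => ?_)
    rw [Real.norm_eq_abs]; exact hb ω
  refine ⟨hi, ?_⟩
  have h1 : P[fun ω => φ ω * (Y t ω - Y s ω)|F s] =ᵐ[P] fun ω => φ ω * (P[fun ω => Y t ω - Y s ω|F s]) ω :=
    condExp_mul_of_stronglyMeasurable_left hsm hi hd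
  have h2 : P[fun ω => Y t ω - Y s ω|F s] =ᵐ[P] 0 := by
    have a1 := condExp_sub (hY.integrable t) (hY.integrable s) (F s)
    have a2 := hY.condExp_ae_eq hst
    have a3 : P[Y s|F s] = Y s :=
      condExp_of_stronglyMeasurable (F.le s) (hY.1 s) (hY.integrable s)
    have a4 : (fun ω => Y t ω - Y s ω) = Y t - Y s := rfl
    rw [a4]
    filter_upwards [a1, a2] with ω b1 b2
    rw [b1, Pi.sub_apply, b2, a3]
    simp
  rw [← integral_condExp (F.le s)]
  rw [integral_congr_ae h1]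
  have : (fun ω => φ ω * (P[fun ω => Y t ω - Y s ω|F s]) ω) =ᵐ[P] fun _ => 0 := by
    filter_upwards [h2] with ω hω
    rw [hω]; simp
  rw [integral_congr_ae this]
  simp


/-! ### pointwise estimates -/

noncomputable def ph (Y : ℝ≥0 → Ω → ℝ) (T : ℝ≥0) (K : ℝ) (n k : ℕ) (ω : Ω) : ℝ :=
  if VV Y T n k ω ≤ K then fd (Y (uu T n k) ω) else 0

noncomputable def mu (Y : ℝ≥0 → Ω → ℝ) (T : ℝ≥0) (n : ℕ) (ω : Ω) : ℝ≥0 :=
  (Finset.range n).sup fun k => ‖Dl Y T n k ω‖₊

noncomputable def Eo (Y : ℝ≥0 → Ω → ℝ) (T : ℝ≥0) (K : ℝ) (n : ℕ) (ω : Ω) : ℝ :=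
  ∑ k ∈ Finset.range n, if VV Y T n k ω ≤ K ∧ K < VV Y T n (k + 1) ω then |Dl Y T n k ω| else 0

theorem Dl_le_mu (T : ℝ≥0) {n k : ℕ} (hk : k < n) (ω : Ω) : |Dl Y T n k ω| ≤ mu Y T n ω := by
  have h := Finset.le_sup (f := fun k => ‖Dl Y T n k ω‖₊) (Finset.mem_range.2 hk)
  have h2 : ((‖Dl Y T n k ω‖₊ : ℝ≥0) : ℝ) ≤ ((mu Y T n ω : ℝ≥0) : ℝ) := by exact_mod_cast h
  simpa using h2

theorem sum_le_K {K : ℝ} (hK : 0 ≤ K) (d : ℕ → ℝ) (hd : ∀ k, 0 ≤ d k) (n : ℕ) :
    (∑ i ∈ Finset.range n, d i ≤ K →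
      ∑ k ∈ Finset.range n, (if ∑ i ∈ Finset.range (k + 1), d i ≤ K then d k else 0) =
        ∑ i ∈ Finset.range n, d i) ∧
      ∑ k ∈ Finset.range n, (if ∑ i ∈ Finset.range (k + 1), d i ≤ K then d k else 0) ≤ K := by
  induction n with
  | zero => simp [hK]
  | succ n ih =>
    rw [Finset.sum_range_succ (fun k => if ∑ i ∈ Finset.range (k + 1), d i ≤ K then d k else 0)]
    by_cases h : ∑ i ∈ Finset.range (n + 1), d i ≤ K
    · rw [if_pos h]
      have h2 : ∑ i ∈ Finset.range n, d i ≤ K := by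
        rw [Finset.sum_range_succ] at h; linarith [hd n]
      rw [ih.1 h2, ← Finset.sum_range_succ]
      exact ⟨fun _ => rfl, h⟩
    · rw [if_neg h, add_zero]
      exact ⟨fun h2 => absurd h2 h, ih.2⟩

theorem point {K : ℝ} (hK : 0 ≤ K) (T : ℝ≥0) {n : ℕ} (hn : 0 < n) (ω : Ω) (h0 : Y 0 ω = 0) :
    (if VV Y T n n ω ≤ K then ff (Y T ω) else 0) ≤
      ∑ k ∈ Finset.range n, ph Y T K n k ω * Dl Y T n k ω +
        (K / 2 * min (mu Y T n ω : ℝ) K + 2 * Eo Y T K n ω) := by
  have ht := tele K (fun k => VV Y T n k ω) (VV_mono T n ω) (fun k => ff (Y (uu T n k) ω))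
    (fun k => ff_nonneg _) n
  have hc0 : ff (Y (uu T n 0) ω) = 0 := by rw [uu_zero, h0]; simp [ff]
  simp only [hc0, add_zero, uu_self T hn] at ht
  have h1 : (if VV Y T n n ω ≤ K then ff (Y T ω) else 0) ≤
      ∑ k ∈ Finset.range n, (if VV Y T n k ω ≤ K then
        ff (Y (uu T n (k + 1)) ω) - ff (Y (uu T n k) ω) else 0) := by
    split_ifs with h
    · rw [ht.1 h]
    · exact ht.2
  refine h1.trans ?_
  have h2 : ∀ k ∈ Finset.range n, (if VV Y T n k ω ≤ K then
      ff (Y (uu T n (k + 1)) ω) - ff (Y (uu T n k) ω) else 0) ≤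
      ph Y T K n k ω * Dl Y T n k ω +
        (1 / 2 * min (mu Y T n ω : ℝ) K * (if VV Y T n (k + 1) ω ≤ K then |Dl Y T n k ω| else 0) +
          2 * (if VV Y T n k ω ≤ K ∧ K < VV Y T n (k + 1) ω then |Dl Y T n k ω| else 0)) := by
    intro k hk
    have hk' := Finset.mem_range.1 hk
    have hV1 : VV Y T n k ω ≤ VV Y T n (k + 1) ω := VV_mono T n ω (Nat.le_succ k)
    have e : Y (uu T n (k + 1)) ω = Y (uu T n k) ω + Dl Y T n k ω := by simp [Dl]
    have hst := ff_step (Y (uu T n k) ω) (Dl Y T n k ω)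
    rw [← e] at hst
    by_cases hA : VV Y T n k ω ≤ K
    · simp only [hA, if_true, true_and, ph]
      by_cases hB : VV Y T n (k + 1) ω ≤ K
      · have hB' : ¬ K < VV Y T n (k + 1) ω := not_lt.2 hB
        simp only [hB, hB', if_true, if_false, mul_zero, add_zero]
        have hm1 : |Dl Y T n k ω| ≤ mu Y T n ω := Dl_le_mu T hk' ω
        have hm2 : |Dl Y T n k ω| ≤ K := by
          have h3 : VV Y T n (k + 1) ω = VV Y T n k ω + |Dl Y T n k ω| := by
            simp [VV, Finset.sum_range_succ]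
          have h4 : 0 ≤ VV Y T n k ω := Finset.sum_nonneg fun i _ => abs_nonneg _
          linarith
        have hm3 : |Dl Y T n k ω| ≤ min (mu Y T n ω : ℝ) K := le_min hm1 hm2
        have h5 : min ((Dl Y T n k ω) ^ 2 / 2) (2 * |Dl Y T n k ω|) ≤
            1 / 2 * min (mu Y T n ω : ℝ) K * |Dl Y T n k ω| := by
          refine (min_le_left _ _).trans ?_
          rw [← sq_abs]
          nlinarith [abs_nonneg (Dl Y T n k ω)]
        linarith
      · have hB' : K < VV Y T n (k + 1) ω := not_le.1 hB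
        simp only [hB, hB', if_true, if_false, mul_zero, zero_add]
        have h5 := min_le_right ((Dl Y T n k ω) ^ 2 / 2) (2 * |Dl Y T n k ω|)
        linarith
    · have hA2 : ¬ VV Y T n (k + 1) ω ≤ K := fun h => hA (hV1.trans h)
      simp [hA, hA2, ph]
  refine (Finset.sum_le_sum h2).trans ?_
  rw [Finset.sum_add_distrib, Finset.sum_add_distrib, ← Finset.mul_sum, ← Finset.mul_sum]
  have h3 := (sum_le_K hK (fun k => |Dl Y T n k ω|) (fun k => abs_nonneg _) n).2
  have h4 : 0 ≤ min (mu Y T n ω : ℝ) K := le_min (NNReal.coe_nonneg _) hK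
  have h5 : 1 / 2 * min (mu Y T n ω : ℝ) K * ∑ k ∈ Finset.range n,
      (if VV Y T n (k + 1) ω ≤ K then |Dl Y T n k ω| else 0) ≤ K / 2 * min (mu Y T n ω : ℝ) K := by
    have : ∑ k ∈ Finset.range n, (if VV Y T n (k + 1) ω ≤ K then |Dl Y T n k ω| else 0) ≤ K := h3
    nlinarith
  unfold Eo
  linarith

theorem Eo_nonneg (T : ℝ≥0) (K : ℝ) (n : ℕ) (ω : Ω) : 0 ≤ Eo Y T K n ω := by
  refine Finset.sum_nonneg fun k _ => ?_
  split_ifs
  · exact abs_nonneg _
  · exact le_rfl

/-- on the set where the overshoot is at `k` -/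
theorem Eo_eq (T : ℝ≥0) (K : ℝ) {n k : ℕ} (hk : k < n) (ω : Ω)
    (h : VV Y T n k ω ≤ K ∧ K < VV Y T n (k + 1) ω) : Eo Y T K n ω = |Dl Y T n k ω| := by
  unfold Eo
  rw [Finset.sum_eq_single k]
  · rw [if_pos h]
  · intro i _ hik
    rw [if_neg]
    rintro ⟨h1, h2⟩
    rcases lt_or_gt_of_ne hik with h3 | h3
    · have := VV_mono (Y := Y) T n ω (show i + 1 ≤ k by omega)
      simp only at this
      linarith [h.1]
    · have := VV_mono (Y := Y) T n ω (show k + 1 ≤ i by omega)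
      simp only at this
      linarith [h.2]
  · intro h1
    exact absurd (Finset.mem_range.2 hk) h1

theorem Eo_le_mu (T : ℝ≥0) (K : ℝ) (n : ℕ) (ω : Ω) : Eo Y T K n ω ≤ mu Y T n ω := by
  by_cases h : ∃ k < n, VV Y T n k ω ≤ K ∧ K < VV Y T n (k + 1) ω
  · obtain ⟨k, hk, h⟩ := h
    rw [Eo_eq T K hk ω h]
    exact Dl_le_mu T hk ω
  · push Not at h
    unfold Eo
    rw [Finset.sum_eq_zero]
    · exact NNReal.coe_nonneg _
    · intro k hk
      rw [if_neg]
      rintro ⟨h1, h2⟩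
      exact absurd (h k (Finset.mem_range.1 hk) h1) (not_le.2 h2)

/-- the mesh tends to `0` -/
theorem mu_tendsto (T : ℝ≥0) (ω : Ω) (hc : Continuous fun t => Y t ω) :
    Tendsto (fun n : ℕ => (mu Y T n ω : ℝ)) atTop (𝓝 0) := by
  have huc : UniformContinuousOn (fun t => Y t ω) (Icc 0 T) :=
    isCompact_Icc.uniformContinuousOn_of_continuous hc.continuousOn
  rw [Metric.tendsto_atTop]
  intro ε hε
  rw [Metric.uniformContinuousOn_iff] at huc
  obtain ⟨δ, hδ, h⟩ := huc (ε / 2) (by positivity)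
  obtain ⟨N, hN⟩ := exists_nat_gt ((T : ℝ) / δ)
  refine ⟨N + 1, fun n hn => ?_⟩
  have hn0 : 0 < n := by omega
  have hn1 : (0 : ℝ) < n := by exact_mod_cast hn0
  have hTn : (T : ℝ) / n < δ := by
    rw [div_lt_iff₀ hn1]
    rw [div_lt_iff₀ hδ] at hN
    have : (N : ℝ) ≤ n := by exact_mod_cast (by omega : N ≤ n)
    nlinarith
  have hle : mu Y T n ω ≤ (⟨ε / 2, by positivity⟩ : ℝ≥0) := by
    refine Finset.sup_le fun k hk => ?_
    have hk' := Finset.mem_range.1 hk
    have e1 : ((uu T n (k + 1) : ℝ≥0) : ℝ) = T * (k + 1) / n := by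
      simp only [uu, min_eq_left (show k + 1 ≤ n by omega)]
      push_cast; ring
    have e2 : ((uu T n k : ℝ≥0) : ℝ) = T * k / n := by
      simp only [uu, min_eq_left hk'.le]
      push_cast; ring
    have hd : dist (uu T n (k + 1)) (uu T n k) < δ := by
      rw [NNReal.dist_eq, e1, e2]
      have : (T : ℝ) * (k + 1) / n - T * k / n = T / n := by ring
      rw [this, abs_of_nonneg (by positivity)]
      exact hTn
    have := h (uu T n (k + 1)) ⟨by positivity, uu_le T hn0 _⟩ (uu T n k) ⟨by positivity, uu_le T hn0 _⟩ hd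
    rw [Real.dist_eq] at this
    rw [← NNReal.coe_le_coe]
    simp only [coe_nnnorm, Real.norm_eq_abs, NNReal.coe_mk]
    exact this.le
  rw [Real.dist_eq, sub_zero, abs_of_nonneg (NNReal.coe_nonneg _)]
  have : (mu Y T n ω : ℝ) ≤ ε / 2 := by exact_mod_cast hle
  linarith


/-! ### measurability and integrals -/

theorem meas_Y (hY : Martingale Y F P) (t : ℝ≥0) : Measurable[F t] (Y t) := (hY.1 t).measurable

theorem meas_Y' (hY : Martingale Y F P) (t : ℝ≥0) : Measurable (Y t) := (meas_Y hY t).mono (F.le t) le_rfl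

theorem meas_Dl (hY : Martingale Y F P) (T : ℝ≥0) (n : ℕ) {i k : ℕ} (h : i < k) :
    Measurable[F (uu T n k)] (Dl Y T n i) := by
  refine Measurable.sub ?_ ?_
  · exact (meas_Y hY _).mono (F.mono (uu_mono T n h)) le_rfl
  · exact (meas_Y hY _).mono (F.mono (uu_mono T n h.le)) le_rfl

theorem meas_Dl' (hY : Martingale Y F P) (T : ℝ≥0) (n i : ℕ) : Measurable (Dl Y T n i) :=
  (meas_Y' hY _).sub (meas_Y' hY _)

theorem meas_VV (hY : Martingale Y F P) (T : ℝ≥0) (n k : ℕ) :
    Measurable[F (uu T n k)] (VV Y T n k) := by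
  unfold VV
  refine @Finset.measurable_sum _ _ _ _ _ _ (F (uu T n k)) _ _ fun i hi => ?_
  exact continuous_abs.measurable.comp (meas_Dl hY T n (Finset.mem_range.1 hi))

theorem meas_VV' (hY : Martingale Y F P) (T : ℝ≥0) (n k : ℕ) : Measurable (VV Y T n k) :=
  (meas_VV hY T n k).mono (F.le _) le_rfl

theorem meas_ph (hY : Martingale Y F P) (T : ℝ≥0) (K : ℝ) (n k : ℕ) :
    Measurable[F (uu T n k)] (ph Y T K n k) := by
  unfold ph
  refine Measurable.ite ?_ ?_ ?_
  · exact measurableSet_le (meas_VV hY T n k) (@measurable_const _ _ _ (F (uu T n k)) _)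
  · exact fd_meas.comp (meas_Y hY _)
  · exact @measurable_const _ _ _ (F (uu T n k)) _

theorem ph_bound (T : ℝ≥0) (K : ℝ) (n k : ℕ) (ω : Ω) : |ph Y T K n k ω| ≤ 1 := by
  unfold ph
  split_ifs
  · exact fd_bound _
  · simp

/-- the set of an overshoot at `k` -/
def Hk (Y : ℝ≥0 → Ω → ℝ) (T : ℝ≥0) (K : ℝ) (n k : ℕ) : Set Ω :=
  {ω | VV Y T n k ω ≤ K ∧ K < VV Y T n (k + 1) ω}

theorem meas_Hk (hY : Martingale Y F P) (T : ℝ≥0) (K : ℝ) (n k : ℕ) :
    MeasurableSet[F (uu T n (k + 1))] (Hk Y T K n k) := by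
  unfold Hk
  refine MeasurableSet.inter ?_ ?_
  · exact measurableSet_le ((meas_VV hY T n k).mono (F.mono (uu_mono T n (Nat.le_succ k))) le_rfl)
      (@measurable_const _ _ _ (F (uu T n (k + 1))) _)
  · exact measurableSet_lt (@measurable_const _ _ _ (F (uu T n (k + 1))) _) (meas_VV hY T n (k + 1))

theorem Eo_ind (T : ℝ≥0) (K : ℝ) (n : ℕ) (ω : Ω) : Eo Y T K n ω =
    ∑ k ∈ Finset.range n, (Hk Y T K n k).indicator (fun ω => |Dl Y T n k ω|) ω := by
  unfold Eo
  refine Finset.sum_congr rfl fun k _ => ?_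
  by_cases h : ω ∈ Hk Y T K n k
  · have h' : VV Y T n k ω ≤ K ∧ K < VV Y T n (k + 1) ω := h
    rw [indicator_of_mem h, if_pos h']
  · have h' : ¬ (VV Y T n k ω ≤ K ∧ K < VV Y T n (k + 1) ω) := h
    rw [indicator_of_notMem h, if_neg h']

theorem Hk_disj (T : ℝ≥0) (K : ℝ) (n : ℕ) {i k : ℕ} (h : i ≠ k) :
    Disjoint (Hk Y T K n i) (Hk Y T K n k) := by
  rw [Set.disjoint_left]
  rintro ω ⟨h1, h2⟩ ⟨h3, h4⟩
  rcases lt_or_gt_of_ne h with h5 | h5
  · have := VV_mono (Y := Y) T n ω (show i + 1 ≤ k by omega)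
    simp only at this
    linarith
  · have := VV_mono (Y := Y) T n ω (show k + 1 ≤ i by omega)
    simp only at this
    linarith

theorem int_Dl [IsProbabilityMeasure P] (hY : Martingale Y F P) (T : ℝ≥0) (n k : ℕ) :
    Integrable (fun ω => |Dl Y T n k ω|) P := ((hY.integrable _).sub (hY.integrable _)).abs

theorem int_Eo [IsProbabilityMeasure P] (hY : Martingale Y F P) (T : ℝ≥0) (K : ℝ) (n : ℕ) :
    Integrable (Eo Y T K n) P := by
  have : Eo Y T K n = fun ω => ∑ k ∈ Finset.range n,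
      (Hk Y T K n k).indicator (fun ω => |Dl Y T n k ω|) ω := funext (Eo_ind T K n)
  rw [this]
  refine integrable_finsetSum _ fun k _ => ?_
  exact (int_Dl hY T n k).indicator (F.le _ _ (meas_Hk hY T K n k))

theorem meas_mu (hY : Martingale Y F P) (T : ℝ≥0) (n : ℕ) : Measurable (mu Y T n) := by
  have key : ∀ s : Finset ℕ, Measurable fun ω => s.sup fun k => ‖Dl Y T n k ω‖₊ := by
    intro s
    induction s using Finset.induction_on with
    | empty => simp
    | insert a s ha ih =>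
      simp only [Finset.sup_insert]
      exact (meas_Dl' hY T n a).nnnorm.sup ih
  exact key (Finset.range n)

/-- the domination of the overshoots -/
theorem Eo_dom [IsProbabilityMeasure P] (hY : Martingale Y F P) (h0 : ∀ᵐ ω ∂P, Y 0 ω = 0)
    (T : ℝ≥0) {K : ℝ} (hK : 0 ≤ K) {n : ℕ} (hn : 0 < n) (C : ℝ) :
    ∫ ω in {ω | C < |Eo Y T K n ω|}, |Eo Y T K n ω| ∂P ≤
      ∫ ω in {ω | C < |Eo Y T K n ω|}, (|Y T ω| + K) ∂P := by
  set S : Set Ω := {ω | C < |Eo Y T K n ω|} with hS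
  have hSm : MeasurableSet S := by
    have h1 : Measurable (Eo Y T K n) := by
      have : Eo Y T K n = fun ω => ∑ k ∈ Finset.range n,
        (Hk Y T K n k).indicator (fun ω => |Dl Y T n k ω|) ω := funext (Eo_ind T K n)
      rw [this]
      refine Finset.measurable_sum _ fun k _ => ?_
      exact (meas_Dl' hY T n k).abs.indicator (F.le _ _ (meas_Hk hY T K n k))
    exact measurableSet_lt measurable_const h1.abs
  have hHm : ∀ k, MeasurableSet (Hk Y T K n k) := fun k => F.le _ _ (meas_Hk hY T K n k)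
  have hX : Integrable (fun ω => |Y T ω| + K) P := (hY.integrable T).abs.add (integrable_const _)
  -- left side as a sum
  have e1 : ∫ ω in S, |Eo Y T K n ω| ∂P =
      ∑ k ∈ Finset.range n, ∫ ω in Hk Y T K n k ∩ S, |Dl Y T n k ω| ∂P := by
    have : ∀ ω, |Eo Y T K n ω| = ∑ k ∈ Finset.range n,
        (Hk Y T K n k).indicator (fun ω => |Dl Y T n k ω|) ω := fun ω => by
      rw [abs_of_nonneg (Eo_nonneg T K n ω), Eo_ind]
    simp_rw [this]
    rw [integral_finsetSum _ fun k _ => ((int_Dl hY T n k).indicator (hHm k)).integrableOn]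
    refine Finset.sum_congr rfl fun k _ => ?_
    rw [integral_indicator (hHm k), Measure.restrict_restrict (hHm k)]
  have e2 : ∀ k ∈ Finset.range n, ∫ ω in Hk Y T K n k ∩ S, |Dl Y T n k ω| ∂P ≤
      ∫ ω in Hk Y T K n k ∩ S, (|Y T ω| + K) ∂P := by
    intro k hk
    have hk' := Finset.mem_range.1 hk
    have hHS : Hk Y T K n k ∩ S = Hk Y T K n k ∩ {ω | C < |Dl Y T n k ω|} := by
      ext ω
      constructor
      · rintro ⟨h1, h2⟩
        refine ⟨h1, ?_⟩
        rw [hS, mem_setOf_eq, Eo_eq T K hk' ω h1, abs_abs] at h2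
        exact h2
      · rintro ⟨h1, h2⟩
        refine ⟨h1, ?_⟩
        rw [hS, mem_setOf_eq, Eo_eq T K hk' ω h1, abs_abs]
        exact h2
    have hHSm : MeasurableSet[F (uu T n (k + 1))] (Hk Y T K n k ∩ S) := by
      rw [hHS]
      refine (meas_Hk hY T K n k).inter ?_
      exact measurableSet_lt (@measurable_const _ _ _ (F (uu T n (k + 1))) _)
        (continuous_abs.measurable.comp (meas_Dl hY T n (Nat.lt_succ_self k)))
    have a1 : ∫ ω in Hk Y T K n k ∩ S, |Dl Y T n k ω| ∂P ≤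
        ∫ ω in Hk Y T K n k ∩ S, (|Y (uu T n (k + 1)) ω| + K) ∂P := by
      refine setIntegral_mono_on_ae (int_Dl hY T n k).integrableOn
        (((hY.integrable _).abs.add (integrable_const _)).integrableOn) (F.le _ _ hHSm) ?_
      filter_upwards [h0] with ω hω hm
      have h1 := abs_le_VV T n ω hω k
      have h2 := hm.1.1
      have h3 : |Dl Y T n k ω| ≤ |Y (uu T n (k + 1)) ω| + |Y (uu T n k) ω| := abs_sub _ _
      linarith
    have a2 : ∫ ω in Hk Y T K n k ∩ S, (|Y (uu T n (k + 1)) ω| + K) ∂P ≤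
        ∫ ω in Hk Y T K n k ∩ S, (|Y T ω| + K) ∂P := by
      rw [integral_add (hY.integrable _).abs.integrableOn (integrable_const _),
        integral_add (hY.integrable _).abs.integrableOn (integrable_const _)]
      have := abs_setIntegral_le hY (uu_le T hn (k + 1)) hHSm
      linarith
    exact a1.trans a2
  rw [e1]
  refine (Finset.sum_le_sum e2).trans ?_
  rw [← integral_biUnion_finset]
  · refine setIntegral_mono_set hX.integrableOn (ae_of_all _ fun ω => by positivity) ?_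
    refine HasSubset.Subset.eventuallyLE ?_
    intro ω hω
    simp only [mem_iUnion, exists_prop] at hω
    obtain ⟨k, _, hk⟩ := hω
    exact hk.2
  · exact fun k _ => (hHm k).inter hSm
  · intro i _ k _ hik
    exact (Hk_disj T K n hik).mono inter_subset_left inter_subset_left
  · exact fun k _ => hX.integrableOn

/-- the main estimate -/
theorem main_ineq [IsProbabilityMeasure P] (hY : Martingale Y F P) (h0 : ∀ᵐ ω ∂P, Y 0 ω = 0)
    (T : ℝ≥0) {K : ℝ} (hK : 0 ≤ K) {n : ℕ} (hn : 0 < n) {G : Set Ω} (hG : MeasurableSet G)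
    (hGK : ∀ ω ∈ G, VV Y T n n ω ≤ K) :
    ∫ ω in G, ff (Y T ω) ∂P ≤ K / 2 * ∫ ω, min (mu Y T n ω : ℝ) K ∂P + 2 * ∫ ω, Eo Y T K n ω ∂P := by
  have hff : Integrable (fun ω => ff (Y T ω)) P := by
    refine (hY.integrable T).abs.mono' (ff_cont.measurable.comp (meas_Y' hY T)).aestronglyMeasurable
      (ae_of_all _ fun ω => ?_)
    rw [Real.norm_eq_abs, abs_of_nonneg (ff_nonneg _)]
    exact ff_le _
  have hmu : Integrable (fun ω => min (mu Y T n ω : ℝ) K) P := by
    refine Integrable.of_bound (C := K) ?_ (ae_of_all _ fun ω => ?_)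
    · exact ((measurable_coe_nnreal_real.comp (meas_mu hY T n)).min measurable_const).aestronglyMeasurable
    · rw [Real.norm_eq_abs, abs_of_nonneg (le_min (NNReal.coe_nonneg _) hK)]
      exact min_le_right _ _
  have htr : ∀ k, Integrable (fun ω => ph Y T K n k ω * Dl Y T n k ω) P ∧
      ∫ ω, ph Y T K n k ω * Dl Y T n k ω ∂P = 0 := fun k =>
    transform hY (uu_mono T n (Nat.le_succ k)) (meas_ph hY T K n k) (ph_bound T K n k)
  have hsum : Integrable (fun ω => ∑ k ∈ Finset.range n, ph Y T K n k ω * Dl Y T n k ω) P :=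
    integrable_finsetSum _ fun k _ => (htr k).1
  have hsum0 : ∫ ω, ∑ k ∈ Finset.range n, ph Y T K n k ω * Dl Y T n k ω ∂P = 0 := by
    rw [integral_finsetSum _ fun k _ => (htr k).1]
    exact Finset.sum_eq_zero fun k _ => (htr k).2
  have hE := int_Eo hY T K n
  have h2 : Integrable (fun ω => K / 2 * min (mu Y T n ω : ℝ) K + 2 * Eo Y T K n ω) P :=
    (hmu.const_mul _).add (hE.const_mul _)
  have h1 : ∫ ω, G.indicator (fun ω => ff (Y T ω)) ω ∂P ≤
      ∫ ω, (∑ k ∈ Finset.range n, ph Y T K n k ω * Dl Y T n k ω +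
        (K / 2 * min (mu Y T n ω : ℝ) K + 2 * Eo Y T K n ω)) ∂P := by
    refine integral_mono_ae (hff.indicator hG) (hsum.add h2) ?_
    filter_upwards [h0] with ω hω
    have hp := point hK T hn ω hω
    by_cases h : ω ∈ G
    · rw [indicator_of_mem h]
      rw [if_pos (hGK ω h)] at hp
      exact hp
    · rw [indicator_of_notMem h]
      refine le_trans ?_ hp
      split_ifs
      · exact ff_nonneg _
      · exact le_rfl
  rw [integral_indicator hG] at h1
  refine h1.trans ?_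
  rw [integral_add hsum h2, hsum0, zero_add, integral_add (hmu.const_mul _) (hE.const_mul _),
    integral_const_mul, integral_const_mul]

theorem zero_at [IsProbabilityMeasure P] (hV : S_VIT) (hY : Martingale Y F P)
    (h0 : ∀ᵐ ω ∂P, Y 0 ω = 0) (hc : ∀ᵐ ω ∂P, Continuous fun t => Y t ω)
    (hbv : ∀ᵐ ω ∂P, LocallyBoundedVariationOn (fun t => Y t ω) univ) (T : ℝ≥0) :
    ∀ᵐ ω ∂P, Y T ω = 0 := by
  -- the good sets
  let G : ℕ → Set Ω := fun K => ⋂ n : ℕ, {ω | VV Y T (n + 1) (n + 1) ω ≤ K}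
  have hGm : ∀ K, MeasurableSet (G K) := fun K => MeasurableSet.iInter fun n =>
    measurableSet_le (meas_VV' hY T _ _) measurable_const
  have key : ∀ K : ℕ, ∀ᵐ ω ∂P, ω ∈ G K → Y T ω = 0 := by
    intro K
    have hK : (0 : ℝ) ≤ K := Nat.cast_nonneg K
    have hmu0 : Tendsto (fun n : ℕ => ∫ ω, min (mu Y T (n + 1) ω : ℝ) K ∂P) atTop (𝓝 0) := by
      have := tendsto_integral_of_dominated_convergence (μ := P)
        (F := fun n ω => min (mu Y T (n + 1) ω : ℝ) K) (f := fun _ => 0) (fun _ => (K : ℝ))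
        (fun n => ((measurable_coe_nnreal_real.comp (meas_mu hY T (n + 1))).min
          measurable_const).aestronglyMeasurable) (integrable_const _)
        (fun n => ae_of_all _ fun ω => by
          rw [Real.norm_eq_abs, abs_of_nonneg (le_min (NNReal.coe_nonneg _) hK)]
          exact min_le_right _ _)
        (by
          filter_upwards [hc] with ω hω
          have h1 := (mu_tendsto T ω hω).comp (tendsto_add_atTop_nat 1)
          have h2 := h1.min (tendsto_const_nhds (x := (K : ℝ)))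
          rw [min_eq_left hK] at h2
          exact h2)
      simpa using this
    have hE0 : Tendsto (fun n : ℕ => ∫ ω, Eo Y T K (n + 1) ω ∂P) atTop (𝓝 0) := by
      have := (hV Ω m P inferInstance (fun n => Eo Y T K (n + 1)) (fun _ => 0)
        (fun ω => |Y T ω| + K) (fun n => int_Eo hY T K (n + 1))
        ((hY.integrable T).abs.add (integrable_const _)) (fun n C => by
          have h1 := Eo_dom hY h0 T hK (Nat.succ_pos n) C
          refine h1.trans (le_of_eq ?_)
          refine integral_congr_ae (ae_of_all _ fun ω => ?_)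
          exact (abs_of_nonneg (by positivity)).symm)
        (by
          filter_upwards [hc] with ω hω
          have h1 := (mu_tendsto T ω hω).comp (tendsto_add_atTop_nat 1)
          exact squeeze_zero (fun n => Eo_nonneg T K (n + 1) ω) (fun n => Eo_le_mu T K (n + 1) ω) h1)).2
      refine this.congr fun n => ?_
      refine integral_congr_ae (ae_of_all _ fun ω => ?_)
      simp only [sub_zero]
      exact abs_of_nonneg (Eo_nonneg T K (n + 1) ω)
    have hle : ∫ ω in G K, ff (Y T ω) ∂P ≤ 0 := by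
      have ht := (hmu0.const_mul ((K : ℝ) / 2)).add (hE0.const_mul 2)
      simp only [mul_zero, add_zero] at ht
      refine ge_of_tendsto' ht fun n => ?_
      exact main_ineq hY h0 T hK (Nat.succ_pos n) (hGm K) fun ω hω => mem_iInter.1 hω n
    have hff : IntegrableOn (fun ω => ff (Y T ω)) (G K) P := by
      have : Integrable (fun ω => ff (Y T ω)) P := by
        refine (hY.integrable T).abs.mono' (ff_cont.measurable.comp (meas_Y' hY T)).aestronglyMeasurable
          (ae_of_all _ fun ω => ?_)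
        rw [Real.norm_eq_abs, abs_of_nonneg (ff_nonneg _)]
        exact ff_le _
      exact this.integrableOn
    have heq : ∫ ω in G K, ff (Y T ω) ∂P = 0 :=
      le_antisymm hle (integral_nonneg fun ω => ff_nonneg _)
    rw [integral_eq_zero_iff_of_nonneg (fun ω => ff_nonneg _) hff] at heq
    have := (ae_restrict_iff' (hGm K)).1 heq
    filter_upwards [this] with ω hω hm
    exact ff_eq_zero (hω hm)
  have hall := ae_all_iff.2 key
  filter_upwards [hall, hbv] with ω h1 h2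
  -- the variation on [0, T] is finite
  have h3 : eVariationOn (fun t => Y t ω) (univ ∩ Icc 0 T) ≠ ∞ := h2 0 T (mem_univ _) (mem_univ _)
  obtain ⟨K, hK⟩ := exists_nat_gt (eVariationOn (fun t => Y t ω) (univ ∩ Icc 0 T)).toReal
  refine h1 K ?_
  refine mem_iInter.2 fun n => ?_
  simp only [mem_setOf_eq]
  have h4 : ∑ i ∈ Finset.range (n + 1), edist (Y (uu T (n + 1) (i + 1)) ω) (Y (uu T (n + 1) i) ω) ≤
      eVariationOn (fun t => Y t ω) (univ ∩ Icc 0 T) := by
    refine eVariationOn.sum_le (f := fun t => Y t ω) (s := univ ∩ Icc 0 T) (uu_mono T (n + 1)) (fun i => ?_)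
    exact ⟨mem_univ _, by positivity, uu_le T (Nat.succ_pos n) i⟩
  have h5 : ENNReal.ofReal (VV Y T (n + 1) (n + 1) ω) ≤
      eVariationOn (fun t => Y t ω) (univ ∩ Icc 0 T) := by
    refine le_trans (le_of_eq ?_) h4
    unfold VV
    rw [ENNReal.ofReal_sum_of_nonneg fun i _ => abs_nonneg _]
    refine Finset.sum_congr rfl fun i _ => ?_
    rw [edist_dist, Real.dist_eq]
    rfl
  have h6 := (ENNReal.ofReal_le_iff_le_toReal h3).1 h5
  linarith

end ZER

theorem t_ZER : S_UIL → S_VIT → S_ZER := by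
  intro _ hV Ω m P hP F Y hY h0 hc hbv
  have h1 : ∀ᵐ ω ∂P, ∀ q : ℚ, Y (Real.toNNReal q) ω = 0 :=
    ae_all_iff.2 fun q => ZER.zero_at hV hY h0 hc hbv _
  filter_upwards [h1, hc] with ω hω hcω
  have hd : Dense (range fun q : ℚ => Real.toNNReal (q : ℝ)) := by
    have h2 : DenseRange (fun q : ℚ => (q : ℝ)) := Rat.denseRange_cast
    have h3 : Function.Surjective Real.toNNReal := fun x => ⟨x, Real.toNNReal_coe⟩
    have := (h3.denseRange).comp h2 continuous_real_toNNReal
    exact this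
  have h4 : (fun t => Y t ω) = fun _ => 0 := by
    refine hcω.ext_on hd continuous_const ?_
    rintro _ ⟨q, rfl⟩
    exact hω q
  intro t
  exact congrFun h4 t

end Run7.h800.RG
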