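import Mathlib

/-!
# Project RG (helper800), problem `MP_e3daee_pr`: a Brownian motion with a singular drift in a larger
filtration

`W`: Brownian motion, `θ`: independent random parameter (law `PE`), `A θ ·`: the distribution function of a
random SINGULAR measure `μ_θ` on `[0, 1]` (`0` with probability `1/2`). Mixed radix digits: level `k` has `mm k`
digits, `μ_θ` is the law of the point with independent digits, the `k`-th uniform in the digits different from the `k`-th
digit of `θ`. `M = W + A`, `F = σ(M)`, `G = σ(W, θ)`. The `F`-compensator of `A` is absolutely continuous,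
`a_t = ∫_0^t b du` (second moment estimate), so `M - a` is an `F`-martingale, but in `G` it is
`W + (A - a)`, and `A - a` is not absolutely continuous.
-/

set_option autoImplicit false

namespace Run7.h800.RG

open MeasureTheory ProbabilityTheory Set Filter Topology
open scoped ENNReal NNReal

/-- The number of digits at level `k`. -/
def mm (k : ℕ) : ℕ := 2 * k + 4

/-- The number of the intervals of level `n`: `[j / NN n, (j + 1) / NN n)`, `j < NN n`. -/
def NN : ℕ → ℕ
  | 0 => 1
  | n + 1 => NN n * mm n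

/-- The mass of the interval `j` of level `n`, if the first `n` digits of the parameter are those of
`x < NN n`. -/
noncomputable def wt : ℕ → ℕ → ℕ → ℝ
  | 0, _, _ => 1
  | n + 1, x, j => wt n (x / mm n) (j / mm n) *
      if x % mm n = j % mm n then 0 else 1 / ((mm n : ℝ) - 1)

/-- The index of the interval of level `n` which contains `u`. -/
noncomputable def ix (n : ℕ) (u : ℝ) : ℕ := ⌊u * (NN n : ℝ)⌋₊

/-- The mass of the interval `j` of level `n`, as a function of the random parameter (no mass for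
negative parameters). -/
noncomputable def w (n : ℕ) (θ : ℝ) (j : ℕ) : ℝ := if θ < 0 then 0 else wt n (ix n θ) j

/-- The distribution function of the random measure. -/
noncomputable def A (θ t : ℝ) : ℝ := ⨆ n : ℕ, ∑ j ∈ Finset.range (ix n (min t 1)), w n θ j

/-- The law of the parameter: `-1` with probability `1/2`, otherwise uniform in `[0, 1)`. -/
noncomputable def PE : Measure ℝ :=
  (2⁻¹ : ℝ≥0∞) • Measure.dirac (-1) + (2⁻¹ : ℝ≥0∞) • volume.restrict (Ico 0 1)

/-- The likelihood ratio of the first `j` increments of level `n` for the parameter `θ`. -/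
noncomputable def L (n j : ℕ) (θ : ℝ) (x : ℕ → ℝ) : ℝ :=
  Real.exp ((NN n : ℝ) * ∑ i ∈ Finset.range j, (w n θ i * x i - (w n θ i) ^ 2 / 2))

/-- The density of the increments of `M`. -/
noncomputable def D (n j : ℕ) (x : ℕ → ℝ) : ℝ := ∫ θ, L n j θ x ∂PE

/-- The numerator of Bayes' formula. -/
noncomputable def U (n j : ℕ) (x : ℕ → ℝ) : ℝ := ∫ θ, w n θ j * L n j θ x ∂PE

/-- The conditional expectation of the density of `μ` in the interval `p.1` of level `n`, given the increments `p.2` of
`M` before this interval. -/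
noncomputable def be (n : ℕ) (p : ℕ × (ℕ → ℝ)) : ℝ := (NN n : ℝ) * U n p.1 p.2 / D n p.1 p.2

/-- Grid times. -/
noncomputable def gt (n j : ℕ) : ℝ≥0 := (j : ℝ≥0) / (NN n : ℝ≥0)

/-- A continuous Brownian motion. -/
structure BM {Ω₀ : Type} [MeasurableSpace Ω₀] (PB : Measure Ω₀) (W : ℝ≥0 → Ω₀ → ℝ) : Prop where
  prob : IsProbabilityMeasure PB
  meas : ∀ t, Measurable (W t)
  bm : IsBrownianReal W PB
  cont : ∀ ω, Continuous fun t => W t ω
  zero : ∀ ω, W 0 ω = 0

section
variable {Ω₀ : Type} [MeasurableSpace Ω₀] (PB : Measure Ω₀) (W : ℝ≥0 → Ω₀ → ℝ)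

/-- The observed process `M = W + A`. -/
noncomputable def M (t : ℝ≥0) (ω : Ω₀ × ℝ) : ℝ := W t ω.1 + A ω.2 t

/-- The increments of `M` of level `n`. -/
noncomputable def dM (n i : ℕ) (ω : Ω₀ × ℝ) : ℝ := M W (gt n (i + 1)) ω - M W (gt n i) ω

/-- The interval of level `n` which contains the time `u`, and the increments before this interval. -/
noncomputable def Phi (n : ℕ) (p : ℝ × (Ω₀ × ℝ)) : ℕ × (ℕ → ℝ) :=
  (ix n p.1, fun i => if i < ix n p.1 then dM W n i p.2 else 0)

/-- The predictable `σ`-algebra of level `n`. -/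
noncomputable def Pn (n : ℕ) : MeasurableSpace (ℝ × (Ω₀ × ℝ)) :=
  MeasurableSpace.comap (Phi W n) inferInstance

/-- The law of `(time, ω)`. -/
noncomputable def Q : Measure (ℝ × (Ω₀ × ℝ)) :=
  (volume.restrict (Ico 0 1)).prod (PB.prod PE)

/-- The density of level `n` of the random measure. -/
noncomputable def fn (n : ℕ) (p : ℝ × (Ω₀ × ℝ)) : ℝ := (NN n : ℝ) * w n p.2.2 (ix n p.1)

/-- Its conditional expectation given the past of `M`. -/
noncomputable def bn (n : ℕ) (p : ℝ × (Ω₀ × ℝ)) : ℝ := be n (Phi W n p)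

/-- `σ(M_s, s ≤ t)`. -/
noncomputable def F0 (t : ℝ≥0) : MeasurableSpace (Ω₀ × ℝ) :=
  ⨆ s : ℝ≥0, ⨆ _ : s ≤ t, MeasurableSpace.comap (M W s) inferInstance

/-- `σ(W_s, s ≤ t; θ)`. -/
noncomputable def G0 (t : ℝ≥0) : MeasurableSpace (Ω₀ × ℝ) :=
  (⨆ s : ℝ≥0, ⨆ _ : s ≤ t, MeasurableSpace.comap (fun ω : Ω₀ × ℝ => W s ω.1) inferInstance) ⊔
    MeasurableSpace.comap Prod.snd inferInstance

/-- The points where the density `b` is integrable in time. -/
def Gd (b : ℝ × (Ω₀ × ℝ) → ℝ) : Set (Ω₀ × ℝ) :=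
  {ω | IntegrableOn (fun u => b (u, ω)) (Ico 0 1) volume}

open Classical in
/-- The compensator. -/
noncomputable def a (b : ℝ × (Ω₀ × ℝ) → ℝ) (t : ℝ≥0) (ω : Ω₀ × ℝ) : ℝ :=
  if ω ∈ Gd b then ∫ u in Ico (0 : ℝ) (min t 1), b (u, ω) else 0

/-- `b` is the predictable density of the compensator. -/
structure Comp (b : ℝ × (Ω₀ × ℝ) → ℝ) : Prop where
  meas : Measurable[⨆ n, Pn W n] b
  nonneg : ∀ p, 0 ≤ b p
  int : Integrable b (Q PB)
  eq : ∀ (n : ℕ) (B : Set (ℝ × (Ω₀ × ℝ))), MeasurableSet[Pn W n] B →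
    ∫ p in B, b p ∂(Q PB) = ∫ p in B, fn n p ∂(Q PB)

end

end Run7.h800.RG
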