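import Pool.Agent.Run7.h800.RG.Defs

/-!
# Project RG: the pieces

Write `theorem t_XXX : S_XXX` (or `theorem t_XXX : S_YYY → S_XXX`, hypotheses in the order named in the doc string) in
`Pool/Agent/Run7/<you>/RG/XXX.lean`, namespace `Run7.<you>.RG`, import `Pool.Agent.Run7.h800.RG.Stm`.
-/

set_option autoImplicit false

namespace Run7.h800.RG

open MeasureTheory ProbabilityTheory Set Filter Topology
open scoped ENNReal NNReal

/-- EXB (30 lines). A Brownian motion with everywhere continuous paths which starts everywhere at `0`: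
`Pool.Agent.Helper41.exists_sheet` gives a continuous one (see the proof of `Pool.Agent.Helper41.BS.exists_bm2_pre`
in `Pool/Agent/Helper41/BS/ExistBM.lean`); take `W t - W 0` (`W 0 = 0` a.s., `IsPreBrownianReal.congr`). -/
def S_EXB : Prop := ∃ (Ω₀ : Type) (_ : MeasurableSpace Ω₀) (PB : Measure Ω₀) (W : ℝ≥0 → Ω₀ → ℝ), BM PB W

/-- ARI (100 lines). Arithmetic of the weights.
(1) `wt (n+1) x (mm n * j + i)`, `i < mm n`: `(mm n * j + i) / mm n = j`, `(mm n * j + i) % mm n = i`, and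
`∑_{i < m, i ≠ x % m} 1/(m - 1) = 1`; `ix (n + 1) θ / mm n = ix n θ` (`Nat.floor_div_natCast`).
(2) from (1) by induction on `n`. (3) each factor is at most `1/3`. (4) `⌊θ N⌋₊` is a measurable function of `θ`.
(5) `ix (n+1) u / mm n = ix n u` for `0 ≤ u`. -/
def S_ARI : Prop :=
  (∀ (n : ℕ) (θ : ℝ) (j : ℕ), ∑ i ∈ Finset.range (mm n), w (n + 1) θ (mm n * j + i) = w n θ j) ∧
  (∀ (n : ℕ) (θ : ℝ), ∑ j ∈ Finset.range (NN n), w n θ j = if θ < 0 then 0 else 1) ∧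
  (∀ (n : ℕ) (θ : ℝ) (j : ℕ), 0 ≤ w n θ j ∧ w n θ j ≤ (1 / 3) ^ n) ∧
  (∀ (n j : ℕ), Measurable fun θ => w n θ j) ∧
  (∀ (n : ℕ) (u : ℝ), 0 ≤ u → ix (n + 1) u / mm n = ix n u) ∧
  (∀ n : ℕ, 4 ^ n ≤ NN n)

/-- CDF (150 lines, `S_ARI → S_CDF`). Let `a_n(t) = ∑_{j < ix n t'} w n θ j`, `t' = min t 1`. As `ix (n+1) t' ≥ mm n * ix n t'` and by
(1) of `ARI`, `a_n(t) ≤ a_{n+1}(t)`, and `a_n ≤ 1` (for `t' ≤ 1` the sum is over `j < NN n`), and (one more interval) `a_{n'}(t) ≤ a_n(t) + w n θ (ix n t') ≤ a_n(t) + 3^(-n)`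
for `n' ≥ n`. So `a_n(t) ≤ A θ t ≤ a_n(t) + 3^(-n)`. At the grid point `t = j / NN n` we have `ix n' t = j * (NN n' / NN n)` and
`a_{n'}(t) = a_n(t)` for `n' ≥ n` (careful with `⌊(j / NN n) * NN n'⌋₊`). Monotone: clear. Continuous: for `|s - t| < 1 / NN n` the indices differ by at most `1`,
so `|A θ t - A θ s| ≤ 3 · 3^(-n)`. Measurable: supremum of measurable functions. -/
def S_CDF : Prop :=
  (∀ θ : ℝ, Continuous (A θ)) ∧ (∀ θ : ℝ, Monotone (A θ)) ∧ (∀ θ : ℝ, A θ 0 = 0) ∧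
  (∀ θ t : ℝ, 0 ≤ A θ t ∧ A θ t ≤ 1) ∧ (∀ t : ℝ, Measurable fun θ => A θ t) ∧
  (∀ (θ t : ℝ), 1 ≤ t → A θ t = A θ 1) ∧
  (∀ (θ : ℝ) (n j : ℕ), j ≤ NN n → A θ ((j : ℝ) / (NN n : ℝ)) = ∑ i ∈ Finset.range j, w n θ i)

/-- ENE (200 lines). **The second moment estimate.** Put `m = mm n`, `S_n(x, x') = NN n * ∑_{i < NN n} wt n x i * wt n x' i` and
`E_n(j) = ∑_{x, x' < NN n} wt n x j * wt n x' j * exp (S_n(x, x'))`. (`x < NN (n+1)` is `m y + i`, `y < NN n`, `i < m`.)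
`S_{n+1}(m y + i, m y' + i') = S_n(y, y') * χ`, `χ = m (m-1) / (m-1)^2 = 1 + 1/(m-1)` if `i = i'`, and
`χ = m (m-2) / (m-1)^2 ≤ 1` if `i ≠ i'`. So `S_n ≤ √(n+1)`, as `(m/(m-1))^2 ≤ (n+2)/(n+1)`, `m = 2n+4`. And
`wt (n+1) (m y + i) j = wt n y (j / m) * (if i = j % m then 0 else 1/(m-1))`, so, with `S = S_n(y, y')` and `(m-1)^2` pairs `(i, i')`, of which
`m - 1` have `i = i'`, and `exp (S/(m-1)) - 1 ≤ 2 S/(m-1)` (as `S ≤ √(n+1) ≤ m - 1`):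
`E_{n+1}(j) ≤ E_n(j / m) * (1 + 2 √(n+1)/(2n+3)^2)`. As `E_0(0) = exp 1` and `∑ 2 √(n+1)/(2n+3)^2 < ∞`, `E_n(j) ≤ C`.
Finally the integral over `θ, θ' ∈ [0, 1)` of a function of `ix n θ, ix n θ'` is `(NN n)^(-2)` times the sum over
`x, x' < NN n`; `w n θ j = 0` for `θ < 0`, and the mass of `[0, 1)` in `PE` is `1/2`: the left side is at most `E_n(j) / 4`. -/
def S_ENE : Prop := ∃ C : ℝ, 0 ≤ C ∧ ∀ n j : ℕ, j < NN n →
  ∫ θ, ∫ θ', (NN n : ℝ) ^ 2 * (w n θ j * w n θ' j *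
    Real.exp ((NN n : ℝ) * ∑ i ∈ Finset.range (NN n), w n θ i * w n θ' i)) ∂PE ∂PE ≤ C

/-- GAU (120 lines). Finite dimensional Gaussian shifts, `γ` is the law of `j` independent centred Gaussians
of variance `v`. (1) the law of `x + c` is the density `∏ exp ((c_i x_i - c_i^2/2)/v)` times `γ` (one dimension: `gaussianPDFReal`;
then `Measure.pi`: check on boxes, `Measure.pi_eq`, or use `lintegral_fintype_prod...`). (2) `∫ exp ((c x - c^2/2)/v) exp ((c' x - c'^2/2)/v) dN(0, v) = exp (c c'/v)`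
(`mgf_gaussianReal`), and products. -/
def S_GAU : Prop := ∀ (j : ℕ) (v : ℝ≥0), v ≠ 0 → ∀ c c' : Fin j → ℝ,
  ((Measure.pi fun _ : Fin j => gaussianReal 0 v).map (fun x i => x i + c i) =
    (Measure.pi fun _ : Fin j => gaussianReal 0 v).withDensity
      (fun x => ENNReal.ofReal (Real.exp ((∑ i, (c i * x i - (c i) ^ 2 / 2)) / v)))) ∧
  ∫⁻ x, ENNReal.ofReal (Real.exp ((∑ i, (c i * x i - (c i) ^ 2 / 2)) / v)) *
      ENNReal.ofReal (Real.exp ((∑ i, (c' i * x i - (c' i) ^ 2 / 2)) / v))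
      ∂(Measure.pi fun _ : Fin j => gaussianReal 0 v) =
    ENNReal.ofReal (Real.exp ((∑ i, c i * c' i) / v))

/-- INC (30 lines). The increments of level `n` of `W` are independent `N(0, 1/NN n)`
(`IsPreBrownianReal.hasIndepIncrements`, `iIndepFun_iff_map_fun_eq_pi_map`, `hasLaw_sub`). -/
def S_INC : Prop := ∀ (Ω₀ : Type) (_ : MeasurableSpace Ω₀) (PB : Measure Ω₀) (W : ℝ≥0 → Ω₀ → ℝ), BM PB W →
  ∀ n j : ℕ, PB.map (fun ω (i : Fin j) => W (gt n (i + 1)) ω - W (gt n i) ω) =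
    Measure.pi fun _ : Fin j => gaussianReal 0 (1 / (NN n : ℝ≥0))

/-- BAY (200 lines, `S_ARI → S_CDF → S_ENE → S_GAU → S_INC → S_BAY`). Bayes' formula. Let `γ` be the law of `j` independent `N(0, 1/NN n)`, `j < NN n`. By `CDF`, `dM W n i ω = (W-increment) + w n θ i` for `i < NN n`, so by
`INC`, `GAU` (1) and Fubini, `E[h(θ) φ(dM_{<j})] = ∫ φ(x) ∫ h(θ) L n j θ x PE(dθ) γ(dx)`. As `w n θ = 0` for `θ < 0`, `D ≥ 1/2`.
(1) both sides are `∫ 1_C NN n * U n j x γ(dx)` (`be * D = NN n * U`). (2) `E[be^2] = ∫ (NN n)^2 U^2 / D dγ ≤ 2 (NN n)^2 ∫ U^2 dγ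
= 2 (NN n)^2 ∫∫ w n θ j * w n θ' j * exp (NN n ∑_{i<j} w n θ i * w n θ' i) PE PE ≤ 2 C` (`GAU` (2), `ENE`; Tonelli, everything is nonnegative). -/
def S_BAY : Prop := ∃ C : ℝ, 0 ≤ C ∧ ∀ (Ω₀ : Type) (_ : MeasurableSpace Ω₀) (PB : Measure Ω₀) (W : ℝ≥0 → Ω₀ → ℝ),
  BM PB W → ∀ n j : ℕ, j < NN n →
  Measurable (fun x : ℕ → ℝ => be n (j, x)) ∧ (∀ x : ℕ → ℝ, 0 ≤ be n (j, x)) ∧
  (∀ C' : Set (ℕ → ℝ), MeasurableSet C' →
    ∫⁻ ω, C'.indicator (fun _ => ENNReal.ofReal ((NN n : ℝ) * w n ω.2 j))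
        (fun i => if i < j then dM W n i ω else 0) ∂(PB.prod PE) =
      ∫⁻ ω, C'.indicator (fun x => ENNReal.ofReal (be n (j, x)))
        (fun i => if i < j then dM W n i ω else 0) ∂(PB.prod PE)) ∧
  ∫⁻ ω, ENNReal.ofReal ((be n (j, fun i => if i < j then dM W n i ω else 0)) ^ 2) ∂(PB.prod PE) ≤
    ENNReal.ofReal C

/-- FIL (80 lines, `S_ARI → S_CDF → S_FIL`). `Phi W n` is measurable, and a function of `Phi W (n+1)`:
`ix n u = ix (n+1) u / mm n`, `dM W n i = ∑_{l < mm n} dM W (n+1) (mm n * i + l)` (telescoping), and `mm n * i + l < mm n * ix n u ≤ ix (n+1) u` for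
`i < ix n u`, `l < mm n`. For `u < 0` all indices are `0`. -/
def S_FIL : Prop := ∀ (Ω₀ : Type) (_ : MeasurableSpace Ω₀) (PB : Measure Ω₀) (W : ℝ≥0 → Ω₀ → ℝ), BM PB W →
  (∀ n, Pn W n ≤ (inferInstance : MeasurableSpace (ℝ × (Ω₀ × ℝ)))) ∧ (∀ n, Pn W n ≤ Pn W (n + 1)) ∧
  (∀ t : ℝ≥0, Measurable (M W t)) ∧ (∀ ω, Continuous fun t => M W t ω) ∧ (∀ ω, M W 0 ω = 0)

/-- TWR (80 lines, `S_ARI → S_FIL → S_TWR`). `fn n` is a density of level `n` of a martingale in `n`: let `B = Phi⁻¹ C`. For `u` in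
the interval `j` of level `n`, `1_B(u, ω)` does not depend on `u`, and by (1) of `ARI` `∫ fn (n+1) (u, ω) du = ∫ fn n (u, ω) du = w n θ j` over this interval. -/
def S_TWR : Prop := ∀ (Ω₀ : Type) (_ : MeasurableSpace Ω₀) (PB : Measure Ω₀) (W : ℝ≥0 → Ω₀ → ℝ), BM PB W →
  (∀ n, Integrable (fn n) (Q PB)) ∧
  ∀ (n : ℕ) (B : Set (ℝ × (Ω₀ × ℝ))), MeasurableSet[Pn W n] B →
    ∫ p in B, fn (n + 1) p ∂(Q PB) = ∫ p in B, fn n p ∂(Q PB)

/-- LIM (200 lines, `S_ARI → S_BAY → S_FIL → S_TWR → S_LIM`). **The density `b`.** `bn W n` is measurable with respect to `Pn W n`, and for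
`B = Phi⁻¹ C`, `∫_B bn = ∫_B fn` (Fubini in `(u, ω)`; on the interval `j`, `u ↦ 1_B, bn, fn` are constant; (1) of `BAY`), `∫ bn^2 ≤ C`. With
`TWR` and `FIL` `bn W n` is a martingale for the filtration `Pn W`, bounded in `L²`, so uniformly integrable; let `b` be the positive part of its
`limitProcess` (`Martingale.ae_eq_condExp_limitProcess`, `uniformIntegrable_of`): `∫_B b = ∫_B bn` for `B` in `Pn W n`. -/
def S_LIM : Prop := ∀ (Ω₀ : Type) (_ : MeasurableSpace Ω₀) (PB : Measure Ω₀) (W : ℝ≥0 → Ω₀ → ℝ), BM PB W →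
  ∃ b : ℝ × (Ω₀ × ℝ) → ℝ, Comp PB W b

/-- GDB (50 lines, `S_FIL → S_GDB`). `Gd b` has measure one, `a b t` is continuous and monotone in `t`, it is integrable, `a b 0 = 0`. (Fubini;
continuity of the integral in `t`.) -/
def S_GDB : Prop := ∀ (Ω₀ : Type) (_ : MeasurableSpace Ω₀) (PB : Measure Ω₀) (W : ℝ≥0 → Ω₀ → ℝ), BM PB W →
  ∀ b : ℝ × (Ω₀ × ℝ) → ℝ, Comp PB W b →
  MeasurableSet (Gd b) ∧ (PB.prod PE) (Gd b)ᶜ = 0 ∧ (∀ ω, Continuous fun t => a b t ω) ∧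
  (∀ ω, Monotone fun t => a b t ω) ∧ (∀ ω, a b 0 ω = 0) ∧ (∀ t, Measurable (a b t)) ∧
  ∀ t, Integrable (a b t) (PB.prod PE)

/-- ADA (100 lines, `S_FIL → S_GDB → S_ADA`). **The compensator is adapted.** For `u < t`, all the increments in `Phi W n (u, ω)` are of times `≤ u < t`
(`(i+1)/NN n ≤ ix n u / NN n ≤ u`), so on `{u < t}` the `σ`-algebra `Pn W n`, and `⨆ n, Pn W n`, is contained in the product of the Borel `σ`-algebra with
`F0 W t`: `(u, ω) ↦ 1_{0 ≤ u < min t 1} b (u, ω)` is measurable for this product (compare on the subtype `{p // p.1 < t}`, `MeasurableSpace.comap_iSup`).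
So `g ω = (∫⁻ u, ofReal (1_{0 ≤ u < min t 1} b (u, ω))).toReal` is `F0 W t`-measurable, and `a b t = g` on `Gd b`. -/
def S_ADA : Prop := ∀ (Ω₀ : Type) (_ : MeasurableSpace Ω₀) (PB : Measure Ω₀) (W : ℝ≥0 → Ω₀ → ℝ), BM PB W →
  ∀ b : ℝ × (Ω₀ × ℝ) → ℝ, Comp PB W b → ∀ t : ℝ≥0,
  ∃ g : Ω₀ × ℝ → ℝ, Measurable[F0 W t] g ∧ a b t =ᵐ[PB.prod PE] g

/-- FMA (200 lines, `S_ARI → S_CDF → S_FIL → S_GDB → S_FMA`). **`a` is the compensator of `A`.** Let first `s ≤ t ≤ 1`, `E ∈ σ(dM W n i; i < ix n s)`, and `n' ≥ n`, `s' = ix n' s / NN n'`,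
`t' = ix n' t / NN n'`. The set `B = {(u, ω) : s' ≤ u < t', ω ∈ E}` is in `Pn W n'` (it is `{ix n' s ≤ ix n' u < ix n' t} ∩ {ω ∈ E}`), so
`∫_E (a t' - a s') = ∫_B b = ∫_B fn n' = ∫_E (A θ t' - A θ s')` (`CDF`), and `n' → ∞` (`s' → s`, `t' → t`, continuity of `A`, `a`, dominated convergence) gives
`∫_E (a t - a s) = ∫_E (A θ t - A θ s)`. The sets `E` (all `n`) are a `π`-system which generates `F0 W s`: `M W r ω = lim ∑_{i < ix n r} dM W n i ω` for `r ≤ s`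
(telescoping, continuity, `M W 0 = 0`), so this holds for all `E ∈ F0 W s` (`MeasureTheory.ext_of_generate_finite`; both sides are finite measures in `E`).
For `s ≥ 1` both sides are `0`; for `s ≤ 1 ≤ t` replace `t` by `1`. -/
def S_FMA : Prop := ∀ (Ω₀ : Type) (_ : MeasurableSpace Ω₀) (PB : Measure Ω₀) (W : ℝ≥0 → Ω₀ → ℝ), BM PB W →
  ∀ b : ℝ × (Ω₀ × ℝ) → ℝ, Comp PB W b → ∀ s t : ℝ≥0, s ≤ t →
  ∀ E : Set (Ω₀ × ℝ), MeasurableSet[F0 W s] E →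
    ∫ ω in E, (A ω.2 t - A ω.2 s) ∂(PB.prod PE) = ∫ ω in E, (a b t ω - a b s ω) ∂(PB.prod PE)

/-- GMA (80 lines). `W` and `W^2 - t` are martingales for `G0`: `W_t - W_s` is independent of `G0 W s` under `PB.prod PE` (independent of `σ(W_r, r ≤ s)` by
`HasIndepIncrements` / `IsPreBrownianReal.indepFun_shift`, and product measure), has mean `0` and variance `t - s`. -/
def S_GMA : Prop := ∀ (Ω₀ : Type) (_ : MeasurableSpace Ω₀) (PB : Measure Ω₀) (W : ℝ≥0 → Ω₀ → ℝ), BM PB W →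
  (∀ t : ℝ≥0, Integrable (fun ω : Ω₀ × ℝ => W t ω.1) (PB.prod PE)) ∧
  (∀ t : ℝ≥0, Integrable (fun ω : Ω₀ × ℝ => (W t ω.1) ^ 2 - (t : ℝ)) (PB.prod PE)) ∧
  ∀ s t : ℝ≥0, s ≤ t → ∀ E : Set (Ω₀ × ℝ), MeasurableSet[G0 W s] E →
    (∫ ω in E, W t ω.1 ∂(PB.prod PE) = ∫ ω in E, W s ω.1 ∂(PB.prod PE)) ∧
    ∫ ω in E, ((W t ω.1) ^ 2 - (t : ℝ)) ∂(PB.prod PE) = ∫ ω in E, ((W s ω.1) ^ 2 - (s : ℝ)) ∂(PB.prod PE)

/-- `f` is absolutely continuous with respect to the increasing function `q` (on bounded intervals). -/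
def ACon (f q : ℝ≥0 → ℝ) : Prop := ∀ T : ℝ≥0, ∀ ε : ℝ, 0 < ε → ∃ δ : ℝ, 0 < δ ∧
  ∀ (k : ℕ) (s t : ℕ → ℝ≥0), (∀ i < k, s i ≤ t i) → (∀ i < k, t i ≤ T) → (∀ i, i + 1 < k → t i ≤ s (i + 1)) →
    ∑ i ∈ Finset.range k, (q (t i) - q (s i)) < δ → ∑ i ∈ Finset.range k, |f (t i) - f (s i)| < ε

/-- NAC (120 lines, `S_ARI → S_CDF → S_NAC`). **`A θ` is singular.** Let `θ ≥ 0`, level `n`, `k = NN n`, `s i = i/NN n`, `t i = (i+1)/NN n` if `w n θ i ≠ 0` and `t i = s i`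
otherwise. The number of `i < NN n` with `w n θ i ≠ 0` is `∏_{l<n} (mm l - 1)`, so the total length is
`∏_{l<n} (2l+3)/(2l+4) ≤ √(3/(2n+3)) → 0` (`((2l+3)/(2l+4))^2 ≤ (2l+3)/(2l+5)`), but `∑ (A θ (t i) - A θ (s i)) = 1`. And `∑ |∫_{s i}^{t i} g| ≤ 1/2` if the total length
is small (absolute continuity of the integral, `MeasureTheory.exists_pos_setLIntegral_lt_of_measure_lt`). So `T = 1`, `ε = 1/2` fails. -/
def S_NAC : Prop := ∀ (θ : ℝ), 0 ≤ θ → ∀ g : ℝ → ℝ, IntegrableOn g (Ico 0 1) volume →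
  ¬ ACon (fun t : ℝ≥0 => A θ t - ∫ u in Ico (0 : ℝ) (min t 1), g u) (fun t : ℝ≥0 => (t : ℝ))

/-- COM (100 lines). **Completion and augmentation.** `m'` is the `σ`-algebra of the null measurable sets (the instance on
`NullMeasurableSpace Ω P`), `P' = P.completion`, `F' t = eventuallyMeasurableSpace (F t) (ae P)` (the sets a.e. equal to a set of `F t`).
For a set `E` of `F' s`, almost everywhere equal to `E₀` in `F s`, `∫_E X_t = ∫_{E₀} X_t`; integrals with respect to `P'` and `P` are the same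
(`integral_map` for the identity, or `integral_trim`; `Measure.completion_apply`). -/
def S_COM : Prop := ∀ (Ω : Type) (m : MeasurableSpace Ω) (P : Measure Ω), IsProbabilityMeasure P →
  ∃ (m' : MeasurableSpace Ω) (P' : @Measure Ω m'), @IsProbabilityMeasure Ω m' P' ∧ @Measure.IsComplete Ω m' P' ∧
    m ≤ m' ∧ (∀ s : Set Ω, P' s = P s) ∧
    ∀ F : ℝ≥0 → MeasurableSpace Ω, Monotone F → (∀ t, F t ≤ m) →
      ∃ F' : @Filtration Ω ℝ≥0 _ m', (∀ s : Set Ω, P s = 0 → MeasurableSet[F' 0] s) ∧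
        (∀ (t : ℝ≥0) (g h : Ω → ℝ), Measurable[F t] h → g =ᵐ[P] h → Measurable[F' t] g) ∧
        ∀ X : ℝ≥0 → Ω → ℝ, (∀ t, Integrable (X t) P) →
          (∀ t, ∃ h : Ω → ℝ, Measurable[F t] h ∧ X t =ᵐ[P] h) →
          (∀ s t : ℝ≥0, s ≤ t → ∀ E : Set Ω, MeasurableSet[F s] E →
            ∫ ω in E, X t ω ∂P = ∫ ω in E, X s ω ∂P) →
          Martingale (m0 := m') X F' P'

end Run7.h800.RG
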