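import Pool.Agent.Helper41.Exist
import Pool.Agent.Run7.h800.RG.Stm

set_option autoImplicit false

open scoped ENNReal NNReal Topology
open MeasureTheory ProbabilityTheory Set Filter
open Pool.Agent.Helper41

namespace Run7.h800.RG

theorem t_EXB : S_EXB := by
  obtain ⟨Ω, mΩ, P, hP, X, hX, hc⟩ := Pool.Agent.Helper41.exists_sheet 1
  have hB : IsBrownianReal (fun (t : ℝ≥0) ω => X (0, t, 1) ω) P := by
    have h1 : IsGaussianProcess (fun (t : ℝ≥0) ω => X (0, t, 1) ω) P :=
      hX.gauss.comp_right (fun t : ℝ≥0 => ((0, t, 1) : Fin 1 × ℝ≥0 × ℝ≥0))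
    refine ⟨h1.isPreBrownianReal_of_covariance ?_ ?_, ?_⟩
    · intro t
      exact hX.char.mean hX.meas _
    · intro s t hst
      have := hX.cov (0, s, 1) (0, t, 1)
      rw [this]
      simp [sheetK, min_eq_left hst]
    · refine Eventually.of_forall fun ω => ?_
      have h2 : Continuous (fun t : ℝ≥0 => ((t, 1) : ℝ≥0 × ℝ≥0)) := by fun_prop
      exact (hc ω 0).comp h2
  have hcont : ∀ ω, Continuous fun t : ℝ≥0 => X (0, t, 1) ω := fun ω => by
    have h2 : Continuous (fun t : ℝ≥0 => ((t, 1) : ℝ≥0 × ℝ≥0)) := by fun_prop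
    exact (hc ω 0).comp h2
  refine ⟨Ω, mΩ, P, fun t ω => X (0, 0 + t, 1) ω - X (0, 0, 1) ω, hP, fun t => ?_, hB.shift 0,
    fun ω => ?_, fun ω => by simp⟩
  · exact (hX.meas _).sub (hX.meas _)
  · have h3 : Continuous fun t : ℝ≥0 => X (0, 0 + t, 1) ω :=
      (hcont ω).comp (by fun_prop : Continuous fun t : ℝ≥0 => 0 + t)
    exact h3.sub continuous_const

end Run7.h800.RG
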