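import Pool.Agent.Run7.h800.RG.Stm

set_option autoImplicit false

open scoped ENNReal NNReal Topology
open MeasureTheory ProbabilityTheory Set Filter

namespace Run7.h800.RG

namespace Fin0

instance PE_prob : IsProbabilityMeasure PE := by
  constructor
  unfold PE
  simp only [Measure.add_apply, Measure.smul_apply, smul_eq_mul, measure_univ, mul_one,
    Measure.restrict_apply_univ, Real.volume_Ico, sub_zero, ENNReal.ofReal_one]
  exact ENNReal.inv_two_add_inv_two

variable {Ω₀ : Type} [m : MeasurableSpace Ω₀] {PB : Measure Ω₀} {W : ℝ≥0 → Ω₀ → ℝ}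

theorem G0_le (hW : BM PB W) (s : ℝ≥0) : G0 W s ≤ (inferInstance : MeasurableSpace (Ω₀ × ℝ)) := by
  unfold G0
  refine sup_le (iSup_le fun r => iSup_le fun hr => ?_) ?_
  · rw [← measurable_iff_comap_le]
    exact (hW.meas r).comp measurable_fst
  · rw [← measurable_iff_comap_le]
    exact measurable_snd

theorem G0_mono : Monotone (G0 W) := by
  intro s t hst
  unfold G0
  refine sup_le_sup (iSup_le fun r => iSup_le fun hr => ?_) le_rfl
  exact le_iSup_of_le r (le_iSup_of_le (hr.trans hst) le_rfl)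

theorem F0_mono : Monotone (F0 W) := by
  intro s t hst
  unfold F0
  refine iSup_le fun r => iSup_le fun hr => ?_
  exact le_iSup_of_le r (le_iSup_of_le (hr.trans hst) le_rfl)

theorem meas_W (t : ℝ≥0) : Measurable[G0 W t] fun ω : Ω₀ × ℝ => W t ω.1 := by
  have h0 : Measurable[MeasurableSpace.comap (fun ω : Ω₀ × ℝ => W t ω.1) inferInstance]
    (fun ω : Ω₀ × ℝ => W t ω.1) := comap_measurable _
  refine h0.mono ?_ le_rfl
  unfold G0
  exact le_sup_of_le_left (le_iSup_of_le t (le_iSup_of_le le_rfl le_rfl))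

theorem meas_snd (t : ℝ≥0) : Measurable[G0 W t] (Prod.snd : Ω₀ × ℝ → ℝ) := by
  have h0 : Measurable[MeasurableSpace.comap (Prod.snd : Ω₀ × ℝ → ℝ) inferInstance]
    (Prod.snd : Ω₀ × ℝ → ℝ) := comap_measurable _
  refine h0.mono ?_ le_rfl
  unfold G0
  exact le_sup_right

theorem meas_M (t : ℝ≥0) : Measurable[F0 W t] (M W t) := by
  have h0 : Measurable[MeasurableSpace.comap (M W t) inferInstance] (M W t) := comap_measurable _
  refine h0.mono ?_ le_rfl
  unfold F0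
  exact le_iSup_of_le t (le_iSup_of_le le_rfl le_rfl)

theorem F0_le_G0 (hA : ∀ t : ℝ, Measurable fun θ => A θ t) (t : ℝ≥0) : F0 W t ≤ G0 W t := by
  unfold F0
  refine iSup_le fun r => iSup_le fun hr => ?_
  rw [← measurable_iff_comap_le]
  have h1 : Measurable[G0 W t] fun ω : Ω₀ × ℝ => W r ω.1 := (meas_W r).mono (G0_mono hr) le_rfl
  have h2 : Measurable[G0 W t] fun ω : Ω₀ × ℝ => A ω.2 r := (hA r).comp (meas_snd t)
  exact Measurable.add h1 h2

end Fin0

/-- The conclusion. -/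
def S_MAIN : Prop :=
  ∃ (Ω : Type) (m : MeasurableSpace Ω) (P : Measure Ω) (F G : Filtration ℝ≥0 m)
    (X N V : ℝ≥0 → Ω → ℝ),
    IsProbabilityMeasure P ∧ P.IsComplete ∧
    (∀ s : Set Ω, P s = 0 → MeasurableSet[F 0] s) ∧ (∀ s : Set Ω, P s = 0 → MeasurableSet[G 0] s) ∧
    (∀ ω, Continuous fun t => X t ω) ∧ Martingale X F P ∧
    (∀ ω, Continuous fun t => N t ω) ∧ Martingale N G P ∧ (∀ t, Integrable (fun ω => (N t ω) ^ 2) P) ∧
    Martingale (fun t ω => (N t ω) ^ 2 - (t : ℝ)) G P ∧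
    (∀ ω, Continuous fun t => V t ω) ∧ (∀ t, Measurable[G t] (V t)) ∧ (∀ ω, V 0 ω = 0) ∧
    (∀ ω, ∃ f g : ℝ≥0 → ℝ, Monotone f ∧ Monotone g ∧ ∀ t, V t ω = f t - g t) ∧
    (∀ t ω, X t ω = N t ω + V t ω) ∧
    1 / 2 ≤ P {ω | ¬ ACon (fun t => V t ω) (fun t => (t : ℝ))}

open Fin0 in
theorem t_MAIN : S_EXB → S_CDF → S_FIL → S_LIM → S_GDB → S_ADA → S_FMA → S_GMA → S_NAC → S_COM →
    S_MAIN := by
  intro hEXB hCDF hFIL hLIM hGDB hADA hFMA hGMA hNAC hCOM
  obtain ⟨Ω₀, mΩ, PB, W, hW⟩ := hEXB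
  obtain ⟨hAc, hAm, hA0, hA01, hAme, hA1, hAg⟩ := hCDF
  obtain ⟨hP1, hP2, hMm, hMc, hM0⟩ := hFIL Ω₀ mΩ PB W hW
  obtain ⟨b, hb⟩ := hLIM Ω₀ mΩ PB W hW
  obtain ⟨hG1, hG2, hac, ham, ha0, hame, hai⟩ := hGDB Ω₀ mΩ PB W hW b hb
  have hada := hADA Ω₀ mΩ PB W hW b hb
  have hfma := hFMA Ω₀ mΩ PB W hW b hb
  obtain ⟨hWi, hWs, hgma⟩ := hGMA Ω₀ mΩ PB W hW
  have hprob := hW.prob
  obtain ⟨m', P', hP', hc, hmm, hPP, hfil⟩ := hCOM (Ω₀ × ℝ) inferInstance (PB.prod PE) inferInstance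
  have hFG : ∀ t, F0 W t ≤ G0 W t := F0_le_G0 hAme
  obtain ⟨F', hF0, hFm, hFmart⟩ := hfil (F0 W) F0_mono (fun t => (hFG t).trans (G0_le hW t))
  obtain ⟨G', hG0, hGm, hGmart⟩ := hfil (G0 W) G0_mono (G0_le hW)
  have hAc' : ∀ ω : Ω₀ × ℝ, Continuous fun t : ℝ≥0 => A ω.2 t := fun ω =>
    (hAc ω.2).comp NNReal.continuous_coe
  have hAi : ∀ t : ℝ≥0, Integrable (fun ω : Ω₀ × ℝ => A ω.2 t) (PB.prod PE) := by
    intro t
    refine Integrable.of_bound (C := 1) ((hAme t).comp measurable_snd).aestronglyMeasurable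
      (ae_of_all _ fun ω => ?_)
    rw [Real.norm_eq_abs, abs_of_nonneg (hA01 _ _).1]
    exact (hA01 _ _).2
  -- the processes
  have hX : ∀ t, Integrable (fun ω : Ω₀ × ℝ => W t ω.1 + (A ω.2 t - a b t ω)) (PB.prod PE) :=
    fun t => (hWi t).add ((hAi t).sub (hai t))
  have hXmart : Martingale (m0 := m') (fun t (ω : Ω₀ × ℝ) => W t ω.1 + (A ω.2 t - a b t ω)) F' P' := by
    refine hFmart _ hX ?_ ?_
    · intro t
      obtain ⟨g, hg, hga⟩ := hada t
      refine ⟨fun ω => M W t ω - g ω, Measurable.sub (meas_M t) hg, ?_⟩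
      filter_upwards [hga] with ω hω
      rw [← hω]
      unfold M
      ring
    · intro s t hst E hE
      have hE1 : MeasurableSet[G0 W s] E := hFG s E hE
      have h1 := (hgma s t hst E hE1).1
      have h2 := hfma s t hst E hE
      rw [integral_sub (hAi t).integrableOn (hAi s).integrableOn,
        integral_sub (hai t).integrableOn (hai s).integrableOn] at h2
      have k : ∀ r : ℝ≥0, ∫ ω in E, (W r ω.1 + (A ω.2 r - a b r ω)) ∂(PB.prod PE) =
          ∫ ω in E, W r ω.1 ∂(PB.prod PE) + (∫ ω in E, A ω.2 r ∂(PB.prod PE) -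
            ∫ ω in E, a b r ω ∂(PB.prod PE)) := by
        intro r
        have hi : Integrable (fun ω : Ω₀ × ℝ => A ω.2 r - a b r ω) ((PB.prod PE).restrict E) :=
          ((hAi r).sub (hai r)).integrableOn
        rw [integral_add (hWi r).integrableOn hi, integral_sub (hAi r).integrableOn (hai r).integrableOn]
      rw [k, k]
      linarith
  have hNmart : Martingale (m0 := m') (fun t (ω : Ω₀ × ℝ) => W t ω.1) G' P' := by
    refine hGmart _ hWi (fun t => ⟨_, meas_W t, ae_eq_refl _⟩) ?_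
    intro s t hst E hE
    exact (hgma s t hst E hE).1
  have hQmart : Martingale (m0 := m') (fun t (ω : Ω₀ × ℝ) => (W t ω.1) ^ 2 - (t : ℝ)) G' P' := by
    refine hGmart _ hWs (fun t => ⟨fun ω => (W t ω.1) ^ 2 - (t : ℝ), ?_, ae_eq_refl _⟩) ?_
    · exact (by fun_prop : Measurable fun x : ℝ => x ^ 2 - (t : ℝ)).comp (meas_W t)
    intro s t hst E hE
    exact (hgma s t hst E hE).2
  have hsq : ∀ t : ℝ≥0, Integrable (fun ω : Ω₀ × ℝ => (W t ω.1) ^ 2) P' := by
    intro t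
    have h1 := hQmart.integrable t
    have h2 := h1.add (integrable_const (μ := P') (t : ℝ))
    refine h2.congr (ae_of_all _ fun ω => ?_)
    simp
  refine ⟨Ω₀ × ℝ, m', P', F', G', fun t ω => W t ω.1 + (A ω.2 t - a b t ω), fun t ω => W t ω.1,
    fun t ω => A ω.2 t - a b t ω, hP', hc, ?_, ?_, ?_, hXmart, ?_, hNmart, hsq, hQmart, ?_, ?_, ?_, ?_,
    fun t ω => rfl, ?_⟩
  · intro s hs
    exact hF0 s (by rw [← hPP]; exact hs)
  · intro s hs
    exact hG0 s (by rw [← hPP]; exact hs)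
  · intro ω
    exact (hW.cont ω.1).add ((hAc' ω).sub (hac ω))
  · intro ω
    exact hW.cont ω.1
  · intro ω
    exact (hAc' ω).sub (hac ω)
  · intro t
    obtain ⟨g, hg, hga⟩ := hada t
    refine hGm t _ (fun ω => A ω.2 t - g ω) ?_ ?_
    · exact Measurable.sub ((hAme t).comp (meas_snd t)) (hg.mono (hFG t) le_rfl)
    · filter_upwards [hga] with ω hω
      rw [hω]
  · intro ω
    have := hA0 ω.2
    simp only [NNReal.coe_zero, this, ha0 ω, sub_self]
  · intro ω
    exact ⟨fun t => A ω.2 t, fun t => a b t ω, fun s t hst => hAm ω.2 (by exact_mod_cast hst), ham ω,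
      fun t => rfl⟩
  · have h1 : {ω : Ω₀ × ℝ | 0 ≤ ω.2} ⊆
        {ω | ¬ ACon (fun t : ℝ≥0 => A ω.2 t - a b t ω) (fun t => (t : ℝ))} := by
      intro ω hω
      by_cases h : ω ∈ Gd b
      · have := hNAC ω.2 hω (fun u => b (u, ω)) h
        simpa only [mem_setOf_eq, a, if_pos h] using this
      · have := hNAC ω.2 hω (fun _ => 0) (integrableOn_const (by simp))
        simp only [integral_zero] at this
        simpa only [mem_setOf_eq, a, if_neg h] using this
    refine le_trans ?_ (measure_mono h1)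
    rw [hPP]
    have h2 : {ω : Ω₀ × ℝ | 0 ≤ ω.2} = univ ×ˢ (Ici 0) := by
      ext ω
      simp
    rw [h2, Measure.prod_prod, measure_univ, one_mul]
    unfold PE
    simp only [Measure.add_apply, Measure.smul_apply, smul_eq_mul]
    rw [Measure.restrict_apply measurableSet_Ici]
    have h3 : Ici (0 : ℝ) ∩ Ico 0 1 = Ico 0 1 := by
      ext x
      simp only [mem_inter_iff, mem_Ici, mem_Ico]
      tauto
    rw [h3, Real.volume_Ico]
    simp

end Run7.h800.RG
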